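import Pool.Agent.Helper16.BW.RES

/-!
# The final theorem, with the constant for all points of degree at most `r`
-/

set_option autoImplicit false
set_option linter.unusedSectionVars false

namespace Pool.Agent.SQ

open NumberField Filter Module MvPolynomial
open Pool.Agent.Helper64.Vojta (Pl nv sn above nv_mul nv_pos nv_nonneg)
open Pool.Agent.Helper52.Vojta (ldeg)
open Pool.Agent.V2
open Pool.Agent.Chart (fld dg crd hgt)

universe u

section

private theorem rootA {n : ℕ} (hn : 0 < n) {r : ℝ} (hr : 1 ≤ r) :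
    ∃ ρ : ℝ, ρ = (1 - 1 / r) ^ (1 / (n : ℝ)) ∧ 0 ≤ ρ ∧ ρ ≤ 1 ∧ r * ρ ^ n = r - 1 := by
  have h1 : 0 ≤ 1 - 1 / r := by
    rw [sub_nonneg, div_le_one (by linarith)]
    exact hr
  have h2 : 1 - 1 / r ≤ 1 := by
    have : 0 ≤ 1 / r := by positivity
    linarith
  refine ⟨_, rfl, Real.rpow_nonneg h1 _, Real.rpow_le_one h1 h2 (by positivity), ?_⟩
  rw [← Real.rpow_natCast, ← Real.rpow_mul h1, one_div_mul_cancel (by positivity), Real.rpow_one]
  field_simp

private theorem valA {n : ℕ} {r ρ : ℝ} (h : r * ρ ^ n = r - 1) :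
    r * Eq n (1 - ρ) - (r - 1) * (1 - ρ) = (1 - n * (r - 1) * (1 - ρ)) / (n + 1) := by
  have h1 : r * ρ ^ (n + 1) = (r - 1) * ρ := by rw [pow_succ, ← mul_assoc, h]
  have hn : (n : ℝ) + 1 ≠ 0 := by positivity
  unfold Eq
  rw [sub_sub_cancel]
  have h2 : r * ((1 - ρ ^ (n + 1)) / (n + 1)) = (r - (r - 1) * ρ) / (n + 1) := by
    rw [← h1]
    ring
  rw [h2]
  field_simp
  ring

private theorem maxA {n : ℕ} {r ρ : ℝ} (hr : 0 ≤ r) (hρ : 0 ≤ ρ) (h : r * ρ ^ n = r - 1) {a : ℝ} (ha : 0 ≤ a) :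
    r * Eq n (1 - a) - (r - 1) * (1 - a) ≤ r * Eq n (1 - ρ) - (r - 1) * (1 - ρ) := by
  have hn : (0 : ℝ) < (n : ℝ) + 1 := by positivity
  have h1 : ρ ^ (n + 1) + (n + 1) * ρ ^ n * (a - ρ) ≤ a ^ (n + 1) := by
    rcases hρ.eq_or_lt with h0 | h0
    · subst h0
      rcases Nat.eq_zero_or_pos n with hn0 | hn0
      · subst hn0
        simp
      · rw [zero_pow hn0.ne', zero_pow (Nat.succ_ne_zero n)]
        simp
        positivity
    · have h2 := one_add_mul_sub_le_pow (a := a / ρ) (by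
        have : 0 ≤ a / ρ := by positivity
        linarith) (n + 1)
      rw [div_pow, le_div_iff₀ (by positivity)] at h2
      refine le_trans (le_of_eq ?_) h2
      push_cast
      field_simp
      ring
  unfold Eq
  rw [sub_sub_cancel, sub_sub_cancel]
  have h3 : r * (ρ ^ (n + 1) + (n + 1) * ρ ^ n * (a - ρ)) ≤ r * a ^ (n + 1) :=
    mul_le_mul_of_nonneg_left h1 hr
  have h4 : r * (ρ ^ (n + 1) + (n + 1) * ρ ^ n * (a - ρ)) = r * ρ ^ (n + 1) + (n + 1) * (r - 1) * (a - ρ) := by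
    rw [← h]
    ring
  rw [h4] at h3
  have h5 : (r * ((1 - ρ ^ (n + 1)) / (n + 1)) - (r - 1) * (1 - ρ)) -
      (r * ((1 - a ^ (n + 1)) / (n + 1)) - (r - 1) * (1 - a)) =
      (r * a ^ (n + 1) - (r * ρ ^ (n + 1) + (n + 1) * (r - 1) * (a - ρ))) / (n + 1) := by
    field_simp
    ring
  have h6 : 0 ≤ (r * a ^ (n + 1) - (r * ρ ^ (n + 1) + (n + 1) * (r - 1) * (a - ρ))) / ((n : ℝ) + 1) :=
    div_nonneg (sub_nonneg.2 h3) hn.le
  rw [← h5] at h6
  linarith

private theorem cnq_maxA {n : ℕ} {s : ℝ} (hs : 1 ≤ s) {θ : ℝ} (h1 : θ ≤ 1) : s * Eq n θ - (s - 1) * θ ≤ cnq n s := by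
  rcases Nat.eq_zero_or_pos n with h0 | h0
  · subst h0
    rw [cnq_zero]
    unfold Eq
    simp
    linarith
  · obtain ⟨ρ, h2, h3, h4, h5⟩ := rootA h0 hs
    have h6 := maxA (n := n) (by linarith) h3 h5 (a := 1 - θ) (by linarith)
    rw [valA h5, sub_sub_cancel] at h6
    rw [cnq, ← h2]
    exact h6

private theorem Eq_leA (n : ℕ) {θ : ℝ} (h1 : θ ≤ 1) : Eq n θ ≤ θ := by
  unfold Eq
  rw [div_le_iff₀ (by positivity)]
  have h2 := one_add_mul_le_pow (a := -θ) (by linarith) (n + 1)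
  rw [← sub_eq_add_neg] at h2
  push_cast at h2
  linarith

/-- `cnq n s` is nonincreasing in `s` -/
theorem cnq_anti {n : ℕ} {s r : ℝ} (hs : 1 ≤ s) (h : s ≤ r) : cnq n r ≤ cnq n s := by
  have hr0 : 0 < r := by linarith
  obtain ⟨θ, h0, h1, h2⟩ := cnq_ex n (hs.trans h)
  have h3 := cnq_maxA (n := n) hs h1
  have h4 := Eq_leA n h1
  rw [eq_div_iff hr0.ne'] at h2
  have h5 : (Eq n θ - (1 - 1 / r) * θ) * r = r * Eq n θ - (r - 1) * θ := by
    field_simp
  rw [h5] at h2
  nlinarith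

end

section

variable {k : Type u} [Field k] [NumberField k]

/-- a bound for the number of the monomials -/
noncomputable def nmon (N d : ℕ) : ℝ := ((Finset.finsuppAntidiag (Finset.univ : Finset (Fin N)) d).card : ℝ)

theorem nmon_nonneg (N d : ℕ) : 0 ≤ nmon N d := Nat.cast_nonneg _

theorem card_supp_le {N d : ℕ} {g : MvPolynomial (Fin N) k} (hg : g.IsHomogeneous d) : (g.support.card : ℝ) ≤ nmon N d := by
  unfold nmon
  norm_cast
  refine Finset.card_le_card fun m hm => ?_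
  rw [Finset.mem_finsuppAntidiag]
  refine ⟨?_, Finset.subset_univ _⟩
  have h2 := hg (mem_support_iff.1 hm)
  rw [Finsupp.weight_apply] at h2
  rw [Finsupp.sum_fintype _ _ (by simp)] at h2
  simpa using h2

/-- the value of a form at a point -/
theorem nv_aeval_le {N d : ℕ} {g : MvPolynomial (Fin N) k} (hg : g.IsHomogeneous d) (x : Fin N → AlgebraicClosure k)
    (w : Pl (fld x)) : nv w (aeval (crd x) g) ≤ (nmon N d + 1) ^ 2 * (cn g w * sn w (crd x) ^ d) := by
  have hs0 : 0 ≤ sn w (crd x) := Real.iSup_nonneg fun i => nv_nonneg _ _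
  have hc0 : 0 ≤ cn g w := Real.iSup_nonneg fun i => nv_nonneg _ _
  have h1 : aeval (crd x) g = ∑ m ∈ g.support, algebraMap k (fld x) (g.coeff m) * ∏ i, crd x i ^ m i := by
    rw [aeval_def, eval₂_eq']
  rw [h1]
  have hpr : ∀ (s : Finset (Fin N)) (m : Fin N →₀ ℕ), nv w (∏ i ∈ s, crd x i ^ m i) ≤ sn w (crd x) ^ (∑ i ∈ s, m i) := by
    intro s m
    classical
    induction s using Finset.induction_on with
    | empty => simp [Pool.Agent.Helper64.Vojta.nv_one]
    | insert a s ha ih =>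
      rw [Finset.prod_insert ha, Finset.sum_insert ha, nv_mul, pow_add]
      refine mul_le_mul ?_ ih (nv_nonneg _ _) (pow_nonneg hs0 _)
      rw [Pool.Agent.Helper16.SQF.nv_pow]
      exact pow_le_pow_left₀ (nv_nonneg _ _) (Pool.Agent.Helper64.Vojta.le_sn w (crd x) a) _
  refine (Pool.Agent.Helper64.Vojta.nv_sum_le w g.support _ (cn g w * sn w (crd x) ^ d) (by positivity) fun m hm => ?_).trans ?_
  · rw [nv_mul]
    refine mul_le_mul (cn_ge (L := fld x) g hm w) ?_ (nv_nonneg _ _) hc0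
    have h2 := hg (mem_support_iff.1 hm)
    rw [Finsupp.weight_apply, Finsupp.sum_fintype _ _ (by simp)] at h2
    have h3 : ∑ i, m i = d := by simpa using h2
    have h4 := hpr Finset.univ m
    rwa [h3] at h4
  · refine mul_le_mul_of_nonneg_right ?_ (by positivity)
    have h2 := card_supp_le hg
    have h3 : (0 : ℝ) ≤ g.support.card := Nat.cast_nonneg _
    gcongr

/-- the contributions of the places are bounded from below -/
theorem lamN_lower {N d : ℕ} {g : MvPolynomial (Fin N) k} (hg : g.IsHomogeneous d) (x : Fin N → AlgebraicClosure k)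
    (hx1 : ∃ j, x j = 1) (hx : aeval x g ≠ 0) (w : Pl (fld x)) :
    -(2 * Real.log (nmon N d + 1) / dg x) ≤ lamN d g x w := by
  have hdg : (0 : ℝ) < dg x := by
    have h3 : FiniteDimensional k (fld x) := FiniteDimensional.right ℚ k (fld x)
    have h4 : 0 < finrank k (fld x) := finrank_pos
    exact_mod_cast h4
  have hcrd : ((aeval (crd x) g : fld x) : AlgebraicClosure k) = aeval x g :=
    (aeval_algebraMap_apply (AlgebraicClosure k) (crd x) g).symm
  have hgx : aeval (crd x) g ≠ 0 := fun h0 => hx (by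
    rw [← hcrd, h0]
    rfl)
  have hne : crd x ≠ 0 := by
    obtain ⟨j, hj⟩ := hx1
    intro h0
    have h1 : (crd x j : AlgebraicClosure k) = 1 := hj
    rw [h0] at h1
    exact zero_ne_one h1
  have hs : 0 < sn w (crd x) := Pool.Agent.Helper64.Vojta.sn_pos w hne
  have h1 := nv_aeval_le hg x w
  have h2 : 0 < nv w (aeval (crd x) g) := nv_pos w hgx
  have hn1 : 0 < nmon N d + 1 := by linarith [nmon_nonneg N d]
  have hc : 0 < cn g w := by
    have hc0 : 0 ≤ cn g w := Real.iSup_nonneg fun i => nv_nonneg _ _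
    rcases hc0.eq_or_lt with h | h
    · rw [← h, zero_mul, mul_zero] at h1
      exact absurd h1 (not_le.2 h2)
    · exact h
  have h3 := Real.log_le_log h2 h1
  rw [Real.log_mul (by positivity) (by positivity), Real.log_mul hc.ne' (by positivity), Real.log_pow, Real.log_pow] at h3
  push_cast at h3
  unfold lamN
  rw [← neg_div, div_le_div_iff_of_pos_right hdg]
  linarith

/-- **The theorem.** -/
theorem res_all {k : Type u} [Field k] [NumberField k] (N n q r : ℕ) (hr : 0 < r)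
    (P : Ideal (MvPolynomial (Fin (N + 1)) k)) [P.IsPrime]
    (hhom : ∀ f ∈ P, ∀ m, homogeneousComponent m f ∈ P)
    (hP : Algebra.trdeg k (MvPolynomial (Fin (N + 1)) k ⧸ P) = n + 1)
    (d : Fin q → ℕ) (hd : ∀ i, 0 < d i) (ε : ℝ) (hε : 0 < ε) :
    ∃ (M : ℕ) (Q : (Fin q → MvPolynomial (Fin (N + 1)) k) → MvPolynomial (Fin (N + 1)) k),
      (∀ g, Q g ∉ P ∧ ∃ e ≤ M, (Q g).IsHomogeneous e) ∧
      ∀ S : Finset (Pl k), ∃ C : ℝ, ∀ g : Fin q → MvPolynomial (Fin (N + 1)) k, (∀ i, (g i).IsHomogeneous (d i)) →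
      ∀ x : Fin (N + 1) → AlgebraicClosure k, (∃ j, x j = 1) → (∀ f ∈ P, aeval x f = 0) → dg x ≤ r →
      ∀ J : Pl (fld x) → Finset (Fin q), (∀ ν ∈ S, ∀ w ∈ above (fld x) ν, n < (J w).card ∧ ∀ I ⊆ J w, I.card = n + 1 →
        ∀ z : Fin (N + 1) → AlgebraicClosure k, ((∃ j, z j = 1) ∧ ∀ f ∈ P, aeval z f = 0) → ∃ i ∈ I, aeval z (g i) ≠ 0) →
        (∀ ν ∈ S, ∀ w ∈ above (fld x) ν, ∀ i ∈ J w, aeval x (g i) ≠ 0) → aeval x (Q g) ≠ 0 →
        (∑ ν ∈ S, ∑ w ∈ above (fld x) ν, ∑ i ∈ J w, lamN (d i) (g i) x w / d i ≤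
          (1 / cnq n r + ε) * hgt x + C * (1 + ∑ i, Height.logHeight fun m : (g i).support => (g i).coeff m)) ∧
        (InTower r x → ∑ ν ∈ S, ∑ w ∈ above (fld x) ν, ∑ i ∈ J w, lamN (d i) (g i) x w / d i ≤
          (r * (n + 1) + ε) * hgt x + C * (1 + ∑ i, Height.logHeight fun m : (g i).support => (g i).coeff m)) ∧
        (∀ w : Pl k → Pl (fld x), (∀ ν, w ν ∈ above (fld x) ν) →
          ∑ ν ∈ S, max (∑ w ∈ above (fld x) ν, (∑ i ∈ J w, lamN (d i) (g i) x w / d i) * cnq n (dg x / ldeg ν w))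
            (max ((∑ i ∈ J (w ν), lamN (d i) (g i) x (w ν) / d i) / (dg x * (n + 1)))
              ((∑ w ∈ above (fld x) ν, ∑ i ∈ J w, lamN (d i) (g i) x w / d i) / (gfam x ν * (n + 1)))) ≤
            (1 + ε) * hgt x + C * (1 + ∑ i, Height.logHeight fun m : (g i).support => (g i).coeff m)) := by
  classical
  have hr1 : (1 : ℝ) ≤ r := by exact_mod_cast hr
  have hγ : 0 < cnq n r := cnq_pos hr1
  have hγ1 : cnq n r ≤ 1 := by
    refine (cnq_le hr1).trans ?_
    rw [div_le_one (by positivity)]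
    have : (0 : ℝ) ≤ n := Nat.cast_nonneg _
    linarith
  -- a smaller ε
  obtain ⟨ε', hε'⟩ : ∃ ε' : ℝ, ε' = ε * cnq n r := ⟨_, rfl⟩
  have hε'0 : 0 < ε' := by
    rw [hε']
    exact mul_pos hε hγ
  have hε'1 : ε' ≤ ε := by
    rw [hε']
    exact mul_le_of_le_one_right hε.le hγ1
  obtain ⟨M, Q, hQ, h⟩ := res_uw N n q r hr P hhom hP d hd ε' hε'0
  refine ⟨M, Q, hQ, fun S => ?_⟩
  obtain ⟨C, hC⟩ := h S
  obtain ⟨B, hB⟩ : ∃ B : ℝ, B = ∑ i, 2 * Real.log (nmon (N + 1) (d i) + 1) := ⟨_, rfl⟩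
  have hBi : ∀ i, 0 ≤ 2 * Real.log (nmon (N + 1) (d i) + 1) := fun i =>
    mul_nonneg zero_le_two (Real.log_nonneg (by linarith [nmon_nonneg (N + 1) (d i)]))
  have hB0 : 0 ≤ B := by
    rw [hB]
    exact Finset.sum_nonneg fun i _ => hBi i
  obtain ⟨C', hC'⟩ : ∃ C' : ℝ, C' = (max C 0 + S.card * B) / cnq n r := ⟨_, rfl⟩
  have hCC : C ≤ C' := by
    rw [hC', le_div_iff₀ hγ]
    have h1 : C * cnq n r ≤ max C 0 * cnq n r := mul_le_mul_of_nonneg_right (le_max_left _ _) hγ.le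
    have h2 : max C 0 * cnq n r ≤ max C 0 := mul_le_of_le_one_right (le_max_right _ _) hγ1
    have h3 : 0 ≤ S.card * B := mul_nonneg (Nat.cast_nonneg _) hB0
    linarith
  refine ⟨C', fun g hg x hx1 hxP hdr J hJ hgx hQx => ?_⟩
  obtain ⟨h1, h2⟩ := hC g hg x hx1 hxP J hJ hgx hQx
  obtain ⟨H, hH⟩ : ∃ H : ℝ, H = 1 + ∑ i, Height.logHeight fun m : (g i).support => (g i).coeff m := ⟨_, rfl⟩
  rw [← hH] at h1 h2 ⊢
  have hH1 : 1 ≤ H := by
    rw [hH]
    have : 0 ≤ ∑ i, Height.logHeight fun m : (g i).support => (g i).coeff m :=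
      Finset.sum_nonneg fun i _ => Height.logHeight_nonneg _
    linarith
  have hdg : (0 : ℝ) < dg x := by
    have h3 : FiniteDimensional k (fld x) := FiniteDimensional.right ℚ k (fld x)
    have h4 : 0 < finrank k (fld x) := finrank_pos
    exact_mod_cast h4
  have hh0 : 0 ≤ hgt x := div_nonneg (Height.logHeight_nonneg _) hdg.le
  have hC1 : C * H ≤ C' * H := mul_le_mul_of_nonneg_right hCC (by linarith)
  have h3 : ∀ w : Pl k → Pl (fld x), (∀ ν, w ν ∈ above (fld x) ν) →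
      ∑ ν ∈ S, max (∑ w ∈ above (fld x) ν, (∑ i ∈ J w, lamN (d i) (g i) x w / d i) * cnq n (dg x / ldeg ν w))
        (max ((∑ i ∈ J (w ν), lamN (d i) (g i) x (w ν) / d i) / (dg x * (n + 1)))
          ((∑ w ∈ above (fld x) ν, ∑ i ∈ J w, lamN (d i) (g i) x w / d i) / (gfam x ν * (n + 1)))) ≤
        (1 + ε') * hgt x + C * H := h1 hdr
  refine ⟨?_, fun ht => ?_, fun w hw => ?_⟩
  · -- local degrees
    have hl0 : ∀ (v : Pl k), ∀ w ∈ above (fld x) v, (0 : ℝ) < ldeg v w := by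
      intro v w hw
      exact_mod_cast Nat.pos_of_ne_zero (Pool.Agent.QP.ldeg_ne_zero hw)
    have hlsum : ∀ (v : Pl k), ∑ w ∈ above (fld x) v, (ldeg v w : ℝ) = dg x := by
      intro v
      have h1 := Pool.Agent.Helper52.Vojta.sum_ldeg (L' := fld x) v
      exact_mod_cast h1
    have hq1 : ∀ (v : Pl k), ∀ w ∈ above (fld x) v, (1 : ℝ) ≤ dg x / ldeg v w := by
      intro v w hw
      rw [le_div_iff₀ (hl0 v w hw), one_mul, ← hlsum v]
      exact Finset.single_le_sum (f := fun w => (ldeg v w : ℝ)) (fun w _ => Nat.cast_nonneg _) hw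
    have hq2 : ∀ (v : Pl k), ∀ w ∈ above (fld x) v, (dg x : ℝ) / ldeg v w ≤ r := by
      intro v w hw
      rw [div_le_iff₀ (hl0 v w hw)]
      have h5 : (1 : ℝ) ≤ ldeg v w := by exact_mod_cast Nat.pos_of_ne_zero (Pool.Agent.QP.ldeg_ne_zero hw)
      have h6 : (dg x : ℝ) ≤ r := by exact_mod_cast hdr
      nlinarith
    -- there are places above
    have hex : ∀ ν : Pl k, ∃ w, w ∈ above (fld x) ν := by
      intro ν
      by_contra hcon
      push Not at hcon
      have h5 := hlsum ν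
      rw [Finset.sum_eq_zero fun w hw => absurd hw (hcon w)] at h5
      linarith
    choose w₀ hw₀ using hex
    have h4 := h3 w₀ hw₀
    -- the lower bound
    have hlow : ∀ ν ∈ S, ∀ w ∈ above (fld x) ν, -(B / dg x) ≤ ∑ i ∈ J w, lamN (d i) (g i) x w / d i := by
      intro ν hν w hw
      have h5 : ∀ i ∈ J w, -(2 * Real.log (nmon (N + 1) (d i) + 1) / dg x) ≤ lamN (d i) (g i) x w / d i := by
        intro i hi
        have h6 := lamN_lower (hg i) x hx1 (hgx ν hν w hw i hi) w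
        have h7 : (1 : ℝ) ≤ d i := by exact_mod_cast hd i
        have h8 : 0 ≤ 2 * Real.log (nmon (N + 1) (d i) + 1) / dg x := div_nonneg (hBi i) hdg.le
        rw [le_div_iff₀ (by linarith)]
        nlinarith
      have h6 : -(B / dg x) ≤ ∑ i ∈ J w, -(2 * Real.log (nmon (N + 1) (d i) + 1) / dg x) := by
        rw [Finset.sum_neg_distrib, neg_le_neg_iff, hB, Finset.sum_div]
        exact Finset.sum_le_sum_of_subset_of_nonneg (Finset.subset_univ _) fun i _ _ => div_nonneg (hBi i) hdg.le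
      exact h6.trans (Finset.sum_le_sum h5)
    -- the comparison for a place of `k`
    have hcmp : ∀ ν ∈ S, cnq n r * ∑ w ∈ above (fld x) ν, ∑ i ∈ J w, lamN (d i) (g i) x w / d i ≤
        ∑ w ∈ above (fld x) ν, (∑ i ∈ J w, lamN (d i) (g i) x w / d i) * cnq n (dg x / ldeg ν w) + B := by
      intro ν hν
      have h5 : ∀ w ∈ above (fld x) ν, cnq n r * ∑ i ∈ J w, lamN (d i) (g i) x w / d i ≤
          (∑ i ∈ J w, lamN (d i) (g i) x w / d i) * cnq n (dg x / ldeg ν w) + B / dg x := by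
        intro w hw
        have h6 := hlow ν hν w hw
        have h7 : cnq n r ≤ cnq n (dg x / ldeg ν w) := cnq_anti (hq1 ν w hw) (hq2 ν w hw)
        have h8 : cnq n (dg x / ldeg ν w) ≤ 1 := by
          refine (cnq_le (hq1 ν w hw)).trans ?_
          rw [div_le_one (by positivity)]
          have : (0 : ℝ) ≤ n := Nat.cast_nonneg _
          linarith
        have h9 : 0 ≤ B / dg x := div_nonneg hB0 hdg.le
        nlinarith
      rw [Finset.mul_sum]
      refine (Finset.sum_le_sum h5).trans ?_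
      rw [Finset.sum_add_distrib, Finset.sum_const, nsmul_eq_mul]
      have h6 : ((above (fld x) ν).card : ℝ) ≤ dg x := by
        exact_mod_cast Pool.Agent.Helper64.Vojta.card_above_le (L := fld x) ν
      have h7 : ((above (fld x) ν).card : ℝ) * (B / dg x) ≤ B := by
        rw [mul_div_assoc', div_le_iff₀ hdg, mul_comm B]
        exact mul_le_mul_of_nonneg_right h6 hB0
      linarith
    have h5 : cnq n r * ∑ ν ∈ S, ∑ w ∈ above (fld x) ν, ∑ i ∈ J w, lamN (d i) (g i) x w / d i ≤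
        (1 + ε') * hgt x + C * H + S.card * B := by
      rw [Finset.mul_sum]
      refine (Finset.sum_le_sum hcmp).trans ?_
      rw [Finset.sum_add_distrib, Finset.sum_const, nsmul_eq_mul]
      refine add_le_add ?_ le_rfl
      refine le_trans (Finset.sum_le_sum fun ν _ => ?_) h4
      exact le_max_left _ _
    have h6 : ∑ ν ∈ S, ∑ w ∈ above (fld x) ν, ∑ i ∈ J w, lamN (d i) (g i) x w / d i ≤
        ((1 + ε') * hgt x + C * H + S.card * B) / cnq n r := by
      rw [le_div_iff₀ hγ]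
      linarith
    refine h6.trans ?_
    rw [div_le_iff₀ hγ]
    have h7 : ((1 / cnq n r + ε) * hgt x + C' * H) * cnq n r =
        (1 + ε') * hgt x + (max C 0 + S.card * B) * H := by
      rw [hC', hε']
      field_simp
    rw [h7]
    have h8 : C * H ≤ max C 0 * H := mul_le_mul_of_nonneg_right (le_max_left _ _) (by linarith)
    have h9 : S.card * B ≤ S.card * B * H := le_mul_of_one_le_right (mul_nonneg (Nat.cast_nonneg _) hB0) hH1
    nlinarith
  · refine (h2 ht).trans ?_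
    have h4 : (r * (n + 1) + ε') * hgt x ≤ (r * (n + 1) + ε) * hgt x :=
      mul_le_mul_of_nonneg_right (by linarith) hh0
    linarith
  · refine (h3 w hw).trans ?_
    have h4 : (1 + ε') * hgt x ≤ (1 + ε) * hgt x := mul_le_mul_of_nonneg_right (by linarith) hh0
    linarith

end

end Pool.Agent.SQ
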