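import Pool.Agent.Helper27.RV.SeqLt
import Pool.Agent.Helper80.LD.SEQld

/-!
# Sequences with constant index sets

As `exists_seq_ld` (helper80) and `exists_seq_lt` (helper27), for points with a set of indices for each place of the residue
field: along a subsequence the sets are the same for all points.
-/

set_option autoImplicit false
set_option linter.unusedSectionVars false

namespace Pool.Agent.SQ

open NumberField Filter Module MvPolynomial
open Pool.Agent.Helper64.Vojta (Pl nv sn above)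
open Pool.Agent.Helper52.Vojta (ldeg)
open Pool.Agent.V2
open Pool.Agent.Chart (fld dg crd hgt)

universe u

/-- a subsequence on which finitely many finite data are constant -/
private theorem sub16 {α : Type*} [Finite α] (F : ℕ → α) : ∃ (ψ : ℕ → ℕ) (t : α), StrictMono ψ ∧ ∀ a, F (ψ a) = t := by
  obtain ⟨t, ht⟩ := Finite.exists_infinite_fiber F
  have h2 : ∃ᶠ a in atTop, F a = t := by
    rw [Nat.frequently_atTop_iff_infinite]
    exact Set.infinite_coe_iff.1 ht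
  obtain ⟨ψ, hψ, hψt⟩ := extraction_of_frequently_atTop h2
  exact ⟨ψ, t, hψ, hψt⟩

theorem exists_seq_ldJ {k : Type u} [Field k] [NumberField k] {N r q : ℕ} (x : ℕ → Fin (N + 1) → AlgebraicClosure k)
    (h1 : ∀ a, ∃ j, x a j = 1) (hr : ∀ a, dg (x a) ≤ r) (w : ∀ a, Pl k → Pl (fld (x a)))
    (hw : ∀ a v, w a v ∈ above (fld (x a)) v) (S : Finset (Pl k)) (J : ∀ a, Pl (fld (x a)) → Finset (Fin q)) :
    ∃ (G : Type) (_ : Group G) (_ : Fintype G) (Hs : Subgroup G) (R : Pl k → G → G → Prop) (g₁ : Pl k → G) (φ : ℕ → ℕ)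
      (T : Pl k → G → Finset (Fin q)),
      StrictMono φ ∧
      (∀ a, Nat.card Hs * dg (x (φ a)) = Fintype.card G) ∧
      (∀ a, ∀ v ∈ S, Nat.card {u : G // ∀ g, R v (u * g) g} * gfam (x (φ a)) v = Fintype.card G) ∧
      ∃ (y : ∀ a, Fin (N + 1) → gal (x (φ a))) (M : ∀ a, Pl k → gal (x (φ a)) → ℝ)
        (s : ∀ a, G →* (gal (x (φ a)) ≃ₐ[k] gal (x (φ a)))) (p : ∀ a, Pl k → G → Pl (fld (x (φ a)))),
        (∀ a j, (y a j : AlgebraicClosure k) = x (φ a) j) ∧ (∀ a, QSG (s a) (M a)) ∧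
        (∀ a, (Fintype.card G : ℝ) * hgt (x (φ a)) = Hg (s a) (M a) (y a)) ∧
        (∀ a, ∀ h ∈ Hs, ∀ j, s a h (y a j) = y a j) ∧
        (∀ a, ∀ v ∈ S, ∀ g g', R v g g' ↔ p a v g = p a v g') ∧
        (∀ a, ∀ v ∈ S, p a v (g₁ v) = w (φ a) v) ∧
        (∀ a v g, p a v g ∈ above (fld (x (φ a))) v) ∧
        (∀ a v, ∀ w ∈ above (fld (x (φ a))) v, Nat.card {g // p a v g = w} = Nat.card Hs * ldeg v w) ∧
        (∀ a v g, ∀ h ∈ Hs, p a v (g * h) = p a v g) ∧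
        (∀ a v g g', p a v g = p a v g' → ∀ z : gal (x (φ a)), (∀ h ∈ Hs, s a h z = z) →
          M a v (s a g z) = M a v (s a g' z)) ∧
        (∀ (a : ℕ) (v : Pl k) (g : G) (d : ℕ) (f : MvPolynomial (Fin (N + 1)) k), aeval (crd (x (φ a))) f ≠ 0 →
          dg (x (φ a)) * lamW d f (x (φ a)) (p a v g) =
            ldeg v (p a v g) * (d * Real.log (mxn (M a v) fun j => s a g (y a j)) - Real.log (M a v (s a g (aeval (y a) f))))) ∧
        ∀ a, ∀ v ∈ S, ∀ g, J (φ a) (p a v g) = T v g := by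
  classical
  obtain ⟨G, gG, fG, Hs, R, g₁, φ, hφ, hHd, hKd, y, M, s, p, hy, hQ', hH, hHy, hRp, hpg₁, hpa, hpc, hph, hpM, hlW⟩ :=
    exists_seq_ld x h1 hr w hw S
  obtain ⟨ψ, t, hψ, ht⟩ := sub16 (fun a => fun z : S × G => J (φ a) (p a z.1 z.2))
  refine ⟨G, gG, fG, Hs, R, g₁, fun a => φ (ψ a), fun v g => if h : v ∈ S then t (⟨v, h⟩, g) else ∅, hφ.comp hψ,
    fun a => hHd _, fun a => hKd _, fun a => y (ψ a), fun a => M (ψ a), fun a => s (ψ a), fun a => p (ψ a), fun a => hy _,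
    fun a => hQ' _, fun a => hH _, fun a => hHy _, fun a => hRp _, fun a => hpg₁ _, fun a => hpa _, fun a => hpc _,
    fun a => hph _, fun a => hpM _, fun a => hlW _, fun a v hv g => ?_⟩
  show J (φ (ψ a)) (p (ψ a) v g) = if h : v ∈ S then t (⟨v, h⟩, g) else ∅
  rw [dif_pos hv, ← ht a]

theorem exists_seq_ltJ {k : Type u} [Field k] [NumberField k] {N r q : ℕ} (x : ℕ → Fin (N + 1) → AlgebraicClosure k)
    (h1 : ∀ a, ∃ j, x a j = 1) (hr : ∀ a, InTower r (x a)) (S : Finset (Pl k))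
    (J : ∀ a, Pl (fld (x a)) → Finset (Fin q)) :
    ∃ (G : Type) (_ : Group G) (_ : Fintype G) (Hs H : Subgroup G) (φ : ℕ → ℕ) (T : Pl k → G → Finset (Fin q)),
      StrictMono φ ∧ H.IsSubnormal ∧ H.index ≤ r ∧
      (∀ a, Nat.card Hs * dg (x (φ a)) = Fintype.card G) ∧
      ∃ (y : ∀ a, Fin (N + 1) → gal (x (φ a))) (M : ∀ a, Pl k → gal (x (φ a)) → ℝ)
        (s : ∀ a, G →* (gal (x (φ a)) ≃ₐ[k] gal (x (φ a)))) (p : ∀ a, Pl k → G → Pl (fld (x (φ a)))),
        (∀ a j, (y a j : AlgebraicClosure k) = x (φ a) j) ∧ (∀ a, QSG (s a) (M a)) ∧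
        (∀ a, (Fintype.card G : ℝ) * hgt (x (φ a)) = Hg (s a) (M a) (y a)) ∧
        (∀ a, ∀ h ∈ H, ∀ j, s a h (y a j) = y a j) ∧
        (∀ a v g, p a v g ∈ above (fld (x (φ a))) v) ∧
        (∀ a v, ∀ w ∈ above (fld (x (φ a))) v, Nat.card {g // p a v g = w} = Nat.card Hs * ldeg v w) ∧
        (∀ (a : ℕ) (v : Pl k) (g : G) (d : ℕ) (f : MvPolynomial (Fin (N + 1)) k), aeval (crd (x (φ a))) f ≠ 0 →
          dg (x (φ a)) * lamW d f (x (φ a)) (p a v g) =
            ldeg v (p a v g) * (d * Real.log (mxn (M a v) fun j => s a g (y a j)) - Real.log (M a v (s a g (aeval (y a) f))))) ∧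
        ∀ a, ∀ v ∈ S, ∀ g, J (φ a) (p a v g) = T v g := by
  classical
  obtain ⟨G, gG, fG, Hs, H, φ, hφ, hHs, hHr, hHd, y, M, s, p, hy, hQ', hH, hHy, hpa, hpc, hlW⟩ :=
    RV.exists_seq_lt x h1 hr S
  obtain ⟨ψ, t, hψ, ht⟩ := sub16 (fun a => fun z : S × G => J (φ a) (p a z.1 z.2))
  refine ⟨G, gG, fG, Hs, H, fun a => φ (ψ a), fun v g => if h : v ∈ S then t (⟨v, h⟩, g) else ∅, hφ.comp hψ, hHs, hHr,
    fun a => hHd _, fun a => y (ψ a), fun a => M (ψ a), fun a => s (ψ a), fun a => p (ψ a), fun a => hy _,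
    fun a => hQ' _, fun a => hH _, fun a => hHy _, fun a => hpa _, fun a => hpc _,
    fun a => hlW _, fun a v hv g => ?_⟩
  show J (φ (ψ a)) (p (ψ a) v g) = if h : v ∈ S then t (⟨v, h⟩, g) else ∅
  rw [dif_pos hv, ← ht a]

end Pool.Agent.SQ
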