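import Pool.Agent.Helper16.BW.COE
import Pool.Agent.Helper16.BW.SEQ
import Pool.Agent.Helper64.BU.HC
import Pool.Agent.Helper80.LD.SEQld
import Pool.Agent.Helper80.LD.NUMw

/-!
# The final theorem with the local degrees, uniformly in the coefficients of the forms, with index sets for the places of
the residue field

After `fin_lu` of `Pool/Agent/Helper80/BU/FINlu.lean` (helper80) and `fin_rlx` of `Pool/Agent/Helper61/RV/FINX.lean` (helper61).
-/

set_option autoImplicit false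
set_option linter.unusedSectionVars false

namespace Pool.Agent.SQ

open NumberField Filter Module MvPolynomial
open Pool.Agent.Helper64.Vojta (Pl nv sn above)
open Pool.Agent.Helper52.Vojta (ldeg)
open Pool.Agent.V2
open Pool.Agent.Chart (fld dg crd hgt)

universe u

section

variable {k : Type u} [Field k] [NumberField k]

/-! ### points -/

private theorem val_crd_luw {N : ℕ} (x : Fin (N + 1) → AlgebraicClosure k) (f : MvPolynomial (Fin (N + 1)) k) :
    ((aeval (crd x) f : fld x) : AlgebraicClosure k) = aeval x f := by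
  have h1 := MvPolynomial.comp_aeval_apply (f := crd x) (fld x).val f
  exact h1

private theorem val_y_luw {N : ℕ} (x : Fin (N + 1) → AlgebraicClosure k) (y : Fin (N + 1) → gal x)
    (hy : ∀ j, (y j : AlgebraicClosure k) = x j) (f : MvPolynomial (Fin (N + 1)) k) :
    ((aeval y f : gal x) : AlgebraicClosure k) = aeval x f := by
  have h1 := MvPolynomial.comp_aeval_apply (f := y) (gal x).val f
  have h2 : (fun j => (gal x).val (y j)) = x := funext hy
  rw [h2] at h1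
  exact h1

private theorem ne_iff_luw {N : ℕ} (x : Fin (N + 1) → AlgebraicClosure k) (y : Fin (N + 1) → gal x)
    (hy : ∀ j, (y j : AlgebraicClosure k) = x j) (f : MvPolynomial (Fin (N + 1)) k) : aeval y f = 0 ↔ aeval x f = 0 := by
  rw [← val_y_luw x y hy f]
  exact ZeroMemClass.coe_eq_zero.symm

private theorem crd_iff_luw {N : ℕ} (x : Fin (N + 1) → AlgebraicClosure k) (f : MvPolynomial (Fin (N + 1)) k) :
    aeval (crd x) f = 0 ↔ aeval x f = 0 := by
  rw [← val_crd_luw x f]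
  exact ZeroMemClass.coe_eq_zero.symm

/-! ### representatives -/

private theorem exists_rep_luw {G : Type} [Group G] [Fintype G] (Hs : Subgroup G) :
    ∃ ρ : Fin Hs.index → G, ∀ g, ∃! j, (ρ j)⁻¹ * g ∈ Hs := by
  classical
  have hf : Finite (G ⧸ Hs) := inferInstance
  have e : (G ⧸ Hs) ≃ Fin Hs.index := Finite.equivFinOfCardEq (by rw [Subgroup.index_eq_card])
  refine ⟨fun j => (e.symm j).out, fun g => ⟨e (QuotientGroup.mk g), ?_, ?_⟩⟩
  · simp only [Equiv.symm_apply_apply]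
    rw [← QuotientGroup.eq, QuotientGroup.out_eq']
  · intro j hj
    simp only at hj
    rw [← QuotientGroup.eq, QuotientGroup.out_eq'] at hj
    rw [← hj, Equiv.apply_symm_apply]

/-- the elements over a set of cosets -/
private theorem card_rep_luw {G : Type} [Group G] [Fintype G] (Hs : Subgroup G) {r : ℕ} (ρ : Fin r → G)
    (hρ : ∀ g, ∃! j, (ρ j)⁻¹ * g ∈ Hs) {P : Type*} (p : G → P) (hp : ∀ g, ∀ h ∈ Hs, p (g * h) = p g) (w : P)
    [DecidableEq P] :
    Nat.card {g // p g = w} = Nat.card Hs * (Finset.univ.filter fun j => p (ρ j) = w).card := by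
  classical
  have e : {g // p g = w} ≃ {j // p (ρ j) = w} × Hs :=
    { toFun := fun g => (⟨(hρ g.1).choose, by
          have h1 := (hρ g.1).choose_spec.1
          have h2 := hp (ρ (hρ g.1).choose) _ h1
          rw [mul_inv_cancel_left] at h2
          rw [← h2]
          exact g.2⟩, ⟨(ρ (hρ g.1).choose)⁻¹ * g.1, (hρ g.1).choose_spec.1⟩)
      invFun := fun q => ⟨ρ q.1.1 * q.2.1, by
          rw [hp _ _ q.2.2]
          exact q.1.2⟩
      left_inv := fun g => Subtype.ext (mul_inv_cancel_left _ _)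
      right_inv := fun q => by
        obtain ⟨⟨j, hj⟩, h⟩ := q
        have h1 : (hρ (ρ j * h.1)).choose = j := by
          refine ((hρ (ρ j * h.1)).choose_spec.2 j ?_).symm
          show (ρ j)⁻¹ * (ρ j * h.1) ∈ Hs
          rw [inv_mul_cancel_left]
          exact h.2
        ext
        · simp only [h1]
        · simp only [h1, inv_mul_cancel_left] }
  rw [Nat.card_congr e, Nat.card_prod, mul_comm]
  congr 1
  rw [Nat.card_eq_fintype_card, Fintype.card_subtype]

end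

/-- The maximum form, with the local degrees, uniformly in the coefficients of the forms. The degree of the form `Q c` is
bounded, and it does not depend on the finite set `S` of places. The subfamilies `J w` depend on the place of the residue
field; they are chosen after the point. -/
theorem fin_luw {k : Type u} [Field k] [NumberField k] {N n d q r : ℕ} (hd : 0 < d) (hr : 0 < r)
    (I : Ideal (MvPolynomial (Fin (N + 1)) k)) [I.IsPrime] (hI : ∀ p ∈ I, ∀ m, homogeneousComponent m p ∈ I)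
    (hdim : Algebra.trdeg k (MvPolynomial (Fin (N + 1)) k ⧸ I) = n + 1) {ε : ℝ} (hε : 0 < ε) :
    ∃ (M : ℕ) (Q : (Fin q × Mns N d → k) → MvPolynomial (Fin (N + 1)) k),
      (∀ c, Q c ∉ I ∧ ∃ e ≤ M, (Q c).IsHomogeneous e) ∧
      ∀ S : Finset (Pl k), ∃ C : ℝ, ∀ (c : Fin q × Mns N d → k), (∀ i, ∃ μ, c (i, μ) = 1) →
      ∀ x : Fin (N + 1) → AlgebraicClosure k, (∃ j, x j = 1) → (∀ p ∈ I, aeval x p = 0) → dg x ≤ r →
      ∀ J : Pl (fld x) → Finset (Fin q), (∀ v ∈ S, ∀ w ∈ above (fld x) v, n + 1 ≤ (J w).card) →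
        (∀ v ∈ S, ∀ w ∈ above (fld x) v, ∀ J' ⊆ J w, J'.card = n + 1 → ∀ z : Fin (N + 1) → AlgebraicClosure k,
          (∀ p ∈ I, aeval z p = 0) → (∀ i ∈ J', aeval z (tfrm c i) = 0) → z = 0) →
        (∀ v ∈ S, ∀ w ∈ above (fld x) v, ∀ i ∈ J w, aeval (crd x) (tfrm c i) ≠ 0) → aeval x (Q c) ≠ 0 →
        ∀ w : Pl k → Pl (fld x), (∀ v, w v ∈ above (fld x) v) →
        ∑ ν ∈ S, max (∑ w ∈ above (fld x) ν, cnq n (dg x / ldeg ν w) * ∑ i ∈ J w, lamW d (tfrm c i) x w)
          (max ((∑ i ∈ J (w ν), lamW d (tfrm c i) x (w ν)) / (dg x * (n + 1)))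
            ((∑ w ∈ above (fld x) ν, ∑ i ∈ J w, lamW d (tfrm c i) x w) / (gfam x ν * (n + 1)))) ≤
          (d + ε) * hgt x + C * (1 + ∑ i, hcf c i) := by
  classical
  have hrR : (0 : ℝ) < r := by exact_mod_cast hr
  have hn1 : (0 : ℝ) < n + 1 := by positivity
  -- the truncations
  have hth : ∀ z : Option (Fin (r + 1) × Fin (r + 1)), ∃ θ : ℝ, 0 ≤ θ ∧ θ ≤ 1 ∧ (z = none → θ = 1) ∧
      ∀ z', z = some z' → 0 < (z'.1 : ℕ) → (z'.1 : ℕ) ≤ z'.2 → Eq n θ - (1 - ((z'.1 : ℕ) : ℝ) / (z'.2 : ℕ)) * θ =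
        cnq n (((z'.2 : ℕ) : ℝ) / (z'.1 : ℕ)) / (((z'.2 : ℕ) : ℝ) / (z'.1 : ℕ)) := by
    intro z
    cases z with
    | none => exact ⟨1, zero_le_one, le_rfl, fun _ => rfl, fun z' h => absurd h (by simp)⟩
    | some z =>
      by_cases hz : 0 < (z.1 : ℕ) ∧ (z.1 : ℕ) ≤ z.2
      · have h1 : (0 : ℝ) < (z.1 : ℕ) := by exact_mod_cast hz.1
        have h2 : ((z.1 : ℕ) : ℝ) ≤ (z.2 : ℕ) := by exact_mod_cast hz.2
        obtain ⟨θ, h3, h4, h5⟩ := cnq_ex n (s := ((z.2 : ℕ) : ℝ) / (z.1 : ℕ)) (by rwa [le_div_iff₀ h1, one_mul])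
        refine ⟨θ, h3, h4, fun h => absurd h (by simp), fun z' h _ _ => ?_⟩
        obtain rfl : z = z' := Option.some_injective _ h
        rw [one_div_div] at h5
        exact h5
      · refine ⟨1, zero_le_one, le_rfl, fun _ => rfl, fun z' h h1 h2 => ?_⟩
        obtain rfl : z = z' := Option.some_injective _ h
        exact absurd ⟨h1, h2⟩ hz
  choose θ hθ hθ1 hθn hθs using hth
  obtain ⟨A₀, hA0, hA1, hA⟩ : ∃ A₀ : ℝ, 0 < A₀ ∧ A₀ ≤ 1 ∧ ∀ z : Fin (r + 1) × Fin (r + 1), 0 < (z.1 : ℕ) →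
      (z.1 : ℕ) ≤ z.2 → A₀ ≤ cnq n (((z.2 : ℕ) : ℝ) / (z.1 : ℕ)) / (((z.2 : ℕ) : ℝ) / (z.1 : ℕ)) := by
    obtain ⟨F, hF⟩ : ∃ F : Fin (r + 1) × Fin (r + 1) → ℝ, F = fun z => if 0 < (z.1 : ℕ) ∧ (z.1 : ℕ) ≤ z.2 then
      cnq n (((z.2 : ℕ) : ℝ) / (z.1 : ℕ)) / (((z.2 : ℕ) : ℝ) / (z.1 : ℕ)) else 1 := ⟨_, rfl⟩
    have hpos : ∀ z, 0 < F z := by
      intro z
      rw [hF]
      show 0 < if 0 < (z.1 : ℕ) ∧ (z.1 : ℕ) ≤ z.2 then
        cnq n (((z.2 : ℕ) : ℝ) / (z.1 : ℕ)) / (((z.2 : ℕ) : ℝ) / (z.1 : ℕ)) else 1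
      split_ifs with hz
      · have h1 : (0 : ℝ) < (z.1 : ℕ) := by exact_mod_cast hz.1
        have h2 : ((z.1 : ℕ) : ℝ) ≤ (z.2 : ℕ) := by exact_mod_cast hz.2
        have h3 : 1 ≤ ((z.2 : ℕ) : ℝ) / (z.1 : ℕ) := by rwa [le_div_iff₀ h1, one_mul]
        exact div_pos (cnq_pos h3) (by linarith)
      · exact one_pos
    obtain ⟨z₀, -, hz₀⟩ := Finset.exists_min_image Finset.univ F ⟨(0, 0), Finset.mem_univ _⟩
    refine ⟨min 1 (F z₀), lt_min one_pos (hpos z₀), min_le_left _ _, fun z h1 h2 => ?_⟩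
    refine (min_le_right _ _).trans ((hz₀ z (Finset.mem_univ z)).trans (le_of_eq ?_))
    rw [hF]
    exact if_pos ⟨h1, h2⟩
  obtain ⟨Mq, Q, hQ, hcoreQ⟩ := core_euw q hd I hI hdim hθ hθ1 (ξ₁ := none) (hθn none rfl) hA0 hA1 hε
  refine ⟨Mq, Q, hQ, fun S => ?_⟩
  by_contra hcon
  push Not at hcon
  have hbad : ∀ m : ℕ, ∃ c : Fin q × Mns N d → k, (∀ i, ∃ μ, c (i, μ) = 1) ∧
      ∃ x : Fin (N + 1) → AlgebraicClosure k, (∃ j, x j = 1) ∧ (∀ p ∈ I, aeval x p = 0) ∧ dg x ≤ r ∧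
      ∃ J : Pl (fld x) → Finset (Fin q), (∀ v ∈ S, ∀ w ∈ above (fld x) v, n + 1 ≤ (J w).card) ∧
        (∀ v ∈ S, ∀ w ∈ above (fld x) v, ∀ J' ⊆ J w, J'.card = n + 1 → ∀ z : Fin (N + 1) → AlgebraicClosure k,
          (∀ p ∈ I, aeval z p = 0) → (∀ i ∈ J', aeval z (tfrm c i) = 0) → z = 0) ∧
        (∀ v ∈ S, ∀ w ∈ above (fld x) v, ∀ i ∈ J w, aeval (crd x) (tfrm c i) ≠ 0) ∧ aeval x (Q c) ≠ 0 ∧
        ∃ w : Pl k → Pl (fld x), (∀ v, w v ∈ above (fld x) v) ∧
        (d + ε) * hgt x + m * (1 + ∑ i, hcf c i) < ∑ ν ∈ S,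
          max (∑ w ∈ above (fld x) ν, cnq n (dg x / ldeg ν w) * ∑ i ∈ J w, lamW d (tfrm c i) x w)
          (max ((∑ i ∈ J (w ν), lamW d (tfrm c i) x (w ν)) / (dg x * (n + 1)))
            ((∑ w ∈ above (fld x) ν, ∑ i ∈ J w, lamW d (tfrm c i) x w) / (gfam x ν * (n + 1)))) := by
    intro m
    by_contra h
    obtain ⟨c, h1, x, h2, h3, h4, J, h5, h6, h7, h8, w, h9, h10⟩ := hcon m
    exact h ⟨c, h1, x, h2, h3, h4, J, h5, h6, h7, h8, w, h9, h10⟩
  choose c0 hc1 x hx1 hxI hxr J hJc hJp hxf hxQ w hw hbig using hbad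
  obtain ⟨G, gG, fG, Hs, R, g₁, φ, T0, hφ, hHd, hKd, y, M, s, p, hy, hQ', hH, hHy, hRp, hpg₁, hpa, hpc, hph, hpM, hlW, hJT⟩ :=
    exists_seq_ldJ x hx1 hxr w hw S J
  have hT0 : ∀ v ∈ S, ∀ g, n + 1 ≤ (T0 v g).card := by
    intro v hv g
    rw [← hJT 0 v hv g]
    exact hJc _ v hv _ (hpa 0 v g)
  obtain ⟨f, hf⟩ : ∃ f : ℕ → Fin q → MvPolynomial (Fin (N + 1)) k, f = fun a => tfrm (c0 (φ a)) := ⟨_, rfl⟩
  obtain ⟨B, hB⟩ : ∃ B : ℕ → ℝ, B = fun a => 1 + ∑ i, hcf (c0 (φ a)) i := ⟨_, rfl⟩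
  have hcf0 : ∀ a i, 0 ≤ hcf (c0 (φ a)) i := fun a i => hcf_nonneg (hc1 _ i)
  have hB1 : ∀ a, 1 ≤ B a := by
    intro a
    have := Finset.sum_nonneg fun i (_ : i ∈ Finset.univ) => hcf0 a i
    rw [hB]
    show 1 ≤ 1 + ∑ i, hcf (c0 (φ a)) i
    linarith
  have hBc : ∀ a i, hcf (c0 (φ a)) i ≤ B a := by
    intro a i
    have := Finset.single_le_sum (f := fun i => hcf (c0 (φ a)) i) (fun i _ => hcf0 a i) (Finset.mem_univ i)
    rw [hB]
    show hcf (c0 (φ a)) i ≤ 1 + ∑ i, hcf (c0 (φ a)) i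
    linarith
  set c : ℝ := (Fintype.card G : ℝ) with hc
  have hc0 : 0 < c := by
    rw [hc]
    exact_mod_cast Fintype.card_pos
  have hφa : ∀ a, a ≤ φ a := fun a => hφ.le_apply
  have hy1 : ∀ a, ∃ j, y a j = 1 := by
    intro a
    obtain ⟨j, hj⟩ := hx1 (φ a)
    refine ⟨j, Subtype.ext ?_⟩
    rw [hy a j, hj]
    rfl
  have hyx : ∀ a (p : MvPolynomial (Fin (N + 1)) k), aeval (y a) p = 0 ↔ aeval (x (φ a)) p = 0 :=
    fun a p => ne_iff_luw _ _ (hy a) p
  have hgp : ∀ a, ∀ v ∈ S, ∀ g, ∀ J' ⊆ T0 v g, J'.card = n + 1 → ∀ z : Fin (N + 1) → AlgebraicClosure k,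
      (∀ p ∈ I, aeval z p = 0) → (∀ i ∈ J', aeval z (tfrm (c0 (φ a)) i) = 0) → z = 0 := by
    intro a v hv g J' hJ'
    rw [← hJT a v hv g] at hJ'
    exact hJp (φ a) v hv _ (hpa a v g) J' hJ'
  have hxf' : ∀ a, ∀ v ∈ S, ∀ g, ∀ i ∈ T0 v g, aeval (crd (x (φ a))) (f a i) ≠ 0 := by
    intro a v hv g i hi
    rw [← hJT a v hv g] at hi
    rw [hf]
    exact hxf (φ a) v hv _ (hpa a v g) i hi
  have hyf : ∀ a, ∀ v ∈ S, ∀ g, ∀ i ∈ T0 v g, aeval (y a) (f a i) ≠ 0 := by
    intro a v hv g i hi h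
    exact hxf' a v hv g i hi ((crd_iff_luw _ _).2 ((hyx a _).1 h))
  -- the index
  have hHs0 : 0 < Nat.card Hs := Nat.card_pos
  have hHi : Nat.card Hs * Hs.index = Fintype.card G := by
    rw [Subgroup.card_mul_index, Nat.card_eq_fintype_card]
  have hdg : ∀ a, dg (x (φ a)) = Hs.index := by
    intro a
    exact Nat.eq_of_mul_eq_mul_left hHs0 ((hHd a).trans hHi.symm)
  set r' : ℕ := Hs.index with hr'
  have hr'r : r' ≤ r := by
    rw [← hdg 0]
    exact hxr _
  have hr'0 : 0 < r' := by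
    rcases Nat.eq_zero_or_pos r' with h | h
    · rw [h, mul_zero] at hHi
      exact absurd hHi.symm Fintype.card_ne_zero
    · exact h
  have hr'R0 : (0 : ℝ) < r' := by exact_mod_cast hr'0
  have hr'R1 : (1 : ℝ) ≤ r' := by exact_mod_cast hr'0
  have hη0 : (0 : ℝ) < Nat.card Hs := by exact_mod_cast hHs0
  have hHR : (Nat.card Hs : ℝ) * r' = c := by
    rw [hc]
    exact_mod_cast hHi
  -- local degrees
  have hl0 : ∀ (a : ℕ) (v : Pl k), ∀ w ∈ above (fld (x (φ a))) v, (0 : ℝ) < ldeg v w := by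
    intro a v w hw
    exact_mod_cast Nat.pos_of_ne_zero (Pool.Agent.QP.ldeg_ne_zero hw)
  have hlsum : ∀ (a : ℕ) (v : Pl k), ∑ w ∈ above (fld (x (φ a))) v, (ldeg v w : ℝ) = r' := by
    intro a v
    have h1 := Pool.Agent.Helper52.Vojta.sum_ldeg (L' := fld (x (φ a))) v
    have h2 : finrank k (fld (x (φ a))) = r' := hdg a
    rw [h2] at h1
    exact_mod_cast h1
  have hl1 : ∀ (a : ℕ) (v : Pl k), ∀ w ∈ above (fld (x (φ a))) v, (ldeg v w : ℝ) ≤ r' := by
    intro a v w hw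
    rw [← hlsum a v]
    exact Finset.single_le_sum (f := fun w => (ldeg v w : ℝ)) (fun w _ => Nat.cast_nonneg _) hw
  have hq1 : ∀ (a : ℕ) (v : Pl k), ∀ w ∈ above (fld (x (φ a))) v, (1 : ℝ) ≤ r' / ldeg v w := by
    intro a v w hw
    rw [le_div_iff₀ (hl0 a v w hw), one_mul]
    exact hl1 a v w hw
  -- the local values
  obtain ⟨Γ, hΓ⟩ : ∃ Γ : ℕ → Pl k → G → ℝ, Γ = fun a v g => ∑ i ∈ T0 v g, gam (s a) (M a) (y a) d (f a i) v g := ⟨_, rfl⟩
  have hΓ' : ∀ a v g, ∑ i ∈ T0 v g, gam (s a) (M a) (y a) d (f a i) v g = Γ a v g := fun a v g => by rw [hΓ]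
  let W : ∀ a, ∀ v : Pl k, Pl (fld (x (φ a))) → ℝ := fun a v w => ∑ i ∈ J (φ a) w, lamW d (f a i) (x (φ a)) w
  let X : ℕ → Pl k → ℝ := fun a v => ∑ w ∈ above (fld (x (φ a))) v, W a v w
  have hXW : ∀ a v, X a v = ∑ w ∈ above (fld (x (φ a))) v, W a v w := fun a v => rfl
  have hWΓ : ∀ a, ∀ v ∈ S, ∀ g, r' * W a v (p a v g) = ldeg v (p a v g) * Γ a v g := by
    intro a v hv g
    show (r' : ℝ) * ∑ i ∈ J (φ a) (p a v g), lamW d (f a i) (x (φ a)) (p a v g) = _
    rw [hΓ, Finset.mul_sum, Finset.mul_sum, hJT a v hv g]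
    refine Finset.sum_congr rfl fun i hi => ?_
    have h1 := hlW a v g d (f a i) (hxf' a v hv g i hi)
    rw [hdg a] at h1
    exact h1
  have hsurj : ∀ a v, ∀ w ∈ above (fld (x (φ a))) v, ∃ g, p a v g = w := by
    intro a v w hw
    have h11 : 0 < Nat.card {g // p a v g = w} := by
      rw [hpc a v w hw]
      exact Nat.mul_pos hHs0 (Nat.pos_of_ne_zero (Pool.Agent.QP.ldeg_ne_zero hw))
    obtain ⟨⟨g, hg⟩⟩ := (Nat.card_pos_iff.1 h11).1
    exact ⟨g, hg⟩
  have hpc' : ∀ a v, ∀ w ∈ above (fld (x (φ a))) v, ((Finset.univ.filter fun g => p a v g = w).card : ℝ) =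
      Nat.card Hs * ldeg v w := by
    intro a v w hw
    have h1 := hpc a v w hw
    rw [Nat.card_eq_fintype_card, Fintype.card_subtype] at h1
    exact_mod_cast h1
  have hGX : ∀ a, ∀ v ∈ S, c * X a v = ∑ g, Γ a v g := by
    intro a v hv
    have hmap : ∀ g ∈ (Finset.univ : Finset G), p a v g ∈ above (fld (x (φ a))) v := fun g _ => hpa a v g
    rw [← Finset.sum_fiberwise_of_maps_to hmap, hXW, Finset.mul_sum]
    refine Finset.sum_congr rfl fun w hw => ?_
    have h1 : ∀ g ∈ Finset.univ.filter (fun g => p a v g = w), Γ a v g = r' * W a v w / ldeg v w := by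
      intro g hg
      have h2 := hWΓ a v hv g
      rw [(Finset.mem_filter.1 hg).2] at h2
      rw [h2, mul_div_cancel_left₀ _ (hl0 a v w hw).ne']
    rw [Finset.sum_congr rfl h1, Finset.sum_const, nsmul_eq_mul, hpc' a v w hw, ← hHR]
    have := (hl0 a v w hw).ne'
    field_simp
  -- the constants
  obtain ⟨C1, hC10, hC1⟩ := gam_ge_u.{u} G k N d q
  obtain ⟨K0, hK0⟩ : ∃ K0 : ℕ → ℝ, K0 = fun a => (q * C1 + 1) * B a := ⟨_, rfl⟩
  have hK0a : ∀ a, K0 a = (q * C1 + 1) * B a := fun a => by rw [hK0]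
  have hK00 : ∀ a, 0 ≤ K0 a := by
    intro a
    have := hB1 a
    rw [hK0a]
    positivity
  have hgl : ∀ a, ∀ v ∈ S, ∀ g g', ∀ i ∈ T0 v g, -(C1 + hcf (c0 (φ a)) i) ≤ gam (s a) (M a) (y a) d (f a i) v g' := by
    intro a v hv g g' i hi
    have h3 := hC1 _ (s a) (M a) (hQ' a) (c0 (φ a)) i (hc1 _ i) (y a) (by
      have := hyf a v hv g i hi
      rwa [hf] at this) v g'
    have h4 := sum_le_hcf (hc1 (φ a) i) {v}
    rw [Finset.sum_singleton] at h4
    rw [hf]
    linarith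
  have hgk : ∀ a, ∀ v ∈ S, ∀ g, -K0 a ≤ Γ a v g := by
    intro a v hv g
    have h1 : ∑ i ∈ T0 v g, (C1 + hcf (c0 (φ a)) i) ≤ K0 a := by
      refine (Finset.sum_le_sum_of_subset_of_nonneg (Finset.subset_univ _) fun i _ _ => ?_).trans ?_
      · exact add_nonneg hC10 (hcf0 a i)
      · rw [Finset.sum_add_distrib, Finset.sum_const, Finset.card_univ, Fintype.card_fin, nsmul_eq_mul, hK0a]
        have h2 := hB1 a
        have h3 : ∑ i, hcf (c0 (φ a)) i = B a - 1 := by
          rw [hB]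
          ring
        have h4 : 0 ≤ (q : ℝ) * C1 := by positivity
        rw [h3]
        nlinarith
    have h2 : ∑ i ∈ T0 v g, -(C1 + hcf (c0 (φ a)) i) ≤ ∑ i ∈ T0 v g, gam (s a) (M a) (y a) d (f a i) v g := by
      refine Finset.sum_le_sum fun i hi => ?_
      exact hgl a v hv g g i hi
    rw [Finset.sum_neg_distrib, hΓ'] at h2
    linarith
  have hWk : ∀ a, ∀ v ∈ S, ∀ w ∈ above (fld (x (φ a))) v, -(ldeg v w / r' * K0 a) ≤ W a v w := by
    intro a v hv w hw
    obtain ⟨g, rfl⟩ := hsurj a v w hw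
    have h1 := hWΓ a v hv g
    have h2 : W a v (p a v g) = ldeg v (p a v g) / r' * Γ a v g := by
      rw [div_mul_eq_mul_div, ← h1, mul_div_cancel_left₀ _ hr'R0.ne']
    rw [h2, ← mul_neg]
    exact mul_le_mul_of_nonneg_left (hgk a v hv g) (div_nonneg (Nat.cast_nonneg _) hr'R0.le)
  have hsumK : ∀ (a : ℕ) (v : Pl k), ∑ w ∈ above (fld (x (φ a))) v, ldeg v w / r' * K0 a = K0 a := by
    intro a v
    rw [← Finset.sum_mul, ← Finset.sum_div, hlsum, div_self hr'R0.ne', one_mul]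
  have hXk : ∀ a, ∀ v ∈ S, -K0 a ≤ X a v := by
    intro a v hv
    rw [hXW, ← hsumK a v, ← Finset.sum_neg_distrib]
    exact Finset.sum_le_sum fun w hw => hWk a v hv w hw
  have hgf1 : ∀ a, ∀ v ∈ S, (1 : ℝ) ≤ gfam (x (φ a)) v := by
    intro a v hv
    have h1 := hKd a v hv
    rcases Nat.eq_zero_or_pos (gfam (x (φ a)) v) with h | h
    · rw [h, mul_zero] at h1
      exact absurd h1.symm Fintype.card_ne_zero
    · exact_mod_cast h
  -- the terms
  set T : ℕ → Pl k → ℝ := fun a v =>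
    max (∑ w ∈ above (fld (x (φ a))) v, cnq n (dg (x (φ a)) / ldeg v w) * W a v w)
      (max (W a v (w (φ a) v) / (dg (x (φ a)) * (n + 1))) (X a v / (gfam (x (φ a)) v * (n + 1)))) with hT
  have hbig' : ∀ a, (d + ε) * hgt (x (φ a)) + φ a * B a < ∑ v ∈ S, T a v := by
    intro a
    have h1 := hbig (φ a)
    simp only [hT, W, X]
    rw [hB, hf]
    exact h1
  have hTX : ∀ a, ∀ v ∈ S, T a v ≤ X a v / (n + 1) + K0 a / (n + 1) := by
    intro a v hv
    have e0 : X a v / (n + 1) + K0 a / (n + 1) = (X a v + K0 a) / (n + 1) := by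
      rw [add_div]
    have hX0 : 0 ≤ X a v + K0 a := by linarith [hXk a v hv]
    have e2 : X a v + K0 a = ∑ w ∈ above (fld (x (φ a))) v, (W a v w + ldeg v w / r' * K0 a) := by
      rw [Finset.sum_add_distrib, hsumK, ← hXW]
    rw [e0]
    refine max_le ?_ (max_le ?_ ?_)
    · rw [e2, Finset.sum_div]
      refine Finset.sum_le_sum fun w hw => ?_
      rw [hdg a]
      have h1 := cnq_le (n := n) (hq1 a v w hw)
      have h2 := cnq_pos (n := n) (hq1 a v w hw)
      have h3 := hWk a v hv w hw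
      have h4 : 0 ≤ (ldeg v w : ℝ) / r' * K0 a := mul_nonneg (div_nonneg (Nat.cast_nonneg _) hr'R0.le) (hK00 a)
      have h5 : cnq n (r' / ldeg v w) * W a v w ≤ cnq n (r' / ldeg v w) * (W a v w + ldeg v w / r' * K0 a) :=
        mul_le_mul_of_nonneg_left (by linarith) h2.le
      refine h5.trans ((mul_le_mul_of_nonneg_right h1 (by linarith)).trans (le_of_eq ?_))
      ring
    · have hw' := hw (φ a) v
      have h1 : W a v (w (φ a) v) + ldeg v (w (φ a) v) / r' * K0 a ≤ X a v + K0 a := by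
        rw [e2]
        exact Finset.single_le_sum (f := fun w => W a v w + ldeg v w / r' * K0 a)
          (fun w hw => by linarith [hWk a v hv w hw]) hw'
      have h4 : 0 ≤ (ldeg v (w (φ a) v) : ℝ) / r' * K0 a := mul_nonneg (div_nonneg (Nat.cast_nonneg _) hr'R0.le) (hK00 a)
      rw [hdg a]
      refine (div_le_div_of_nonneg_right (show W a v (w (φ a) v) ≤ X a v + K0 a by linarith) (by positivity)).trans ?_
      refine div_le_div_of_nonneg_left hX0 hn1 ?_
      nlinarith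
    · refine (div_le_div_of_nonneg_right (show X a v ≤ X a v + K0 a by linarith [hK00 a]) ?_).trans ?_
      · exact mul_nonneg (Nat.cast_nonneg _) hn1.le
      · refine div_le_div_of_nonneg_left hX0 hn1 ?_
        have := hgf1 a v hv
        nlinarith
  have hh0 : ∀ a, 0 ≤ hgt (x a) := fun a => by
    unfold hgt
    exact div_nonneg (Height.logHeight_nonneg _) (Nat.cast_nonneg _)
  obtain ⟨K6, K5, hK60, hSX⟩ : ∃ K6 K5 : ℝ, 0 ≤ K6 ∧ ∀ a, ∑ v ∈ S, X a v ≤ K6 * hgt (x (φ a)) + K5 * B a := by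
    obtain ⟨C2, hC20, hC2⟩ := gam_sum_u.{u} G k N d q
    refine ⟨S.card * (q * (d * c)), S.card * (q * (c + C2 + c * (C1 + 1))), by positivity, fun a => ?_⟩
    have h0 : ∀ v ∈ S, ∀ g, Γ a v g ≤ q * (d * (c * hgt (x (φ a))) + (c + C2 + c * (C1 + 1)) * B a) := by
      intro v hv g
      have h2 : ∀ i ∈ T0 v g, gam (s a) (M a) (y a) d (f a i) v g ≤
          d * (c * hgt (x (φ a))) + (c + C2 + c * (C1 + 1)) * B a := by
        intro i hi
        have h3 := hC2 _ (s a) (M a) (hQ' a) (c0 (φ a)) i (hc1 _ i) (y a) (hy1 a) (by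
          have := hyf a v hv g i hi
          rwa [hf] at this) {v}
        rw [Finset.sum_singleton, ← hH a, ← hc] at h3
        have h4 : gam (s a) (M a) (y a) d (f a i) v g + (C1 + hcf (c0 (φ a)) i) ≤
            ∑ g', (gam (s a) (M a) (y a) d (f a i) v g' + (C1 + hcf (c0 (φ a)) i)) :=
          Finset.single_le_sum (f := fun g' => gam (s a) (M a) (y a) d (f a i) v g' + (C1 + hcf (c0 (φ a)) i))
            (fun g' _ => by linarith [hgl a v hv g g' i hi]) (Finset.mem_univ g)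
        rw [Finset.sum_add_distrib, Finset.sum_const, Finset.card_univ, nsmul_eq_mul, ← hc] at h4
        have h5 := hBc a i
        have h6 := hB1 a
        have h7 := hcf0 a i
        have h8 : ∑ g', gam (s a) (M a) (y a) d (f a i) v g' ≤ d * (c * hgt (x (φ a))) + (c * hcf (c0 (φ a)) i + C2) := by
          rw [hf]
          linarith
        have h9 : c * hcf (c0 (φ a)) i ≤ c * B a := mul_le_mul_of_nonneg_left h5 hc0.le
        have h10 : C2 ≤ C2 * B a := le_mul_of_one_le_right hC20 h6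
        have h11 : c * C1 ≤ c * C1 * B a := le_mul_of_one_le_right (mul_nonneg hc0.le hC10) h6
        have h12 : (c + C2 + c * (C1 + 1)) * B a = c * B a + C2 * B a + c * C1 * B a + c * B a := by ring
        rw [h12]
        linarith
      have h13 : 0 ≤ d * (c * hgt (x (φ a))) + (c + C2 + c * (C1 + 1)) * B a := by
        have h14 := hB1 a
        have h15 : 0 ≤ (d : ℝ) * (c * hgt (x (φ a))) := mul_nonneg (Nat.cast_nonneg _) (mul_nonneg hc0.le (hh0 _))
        have h16 : 0 ≤ (c + C2 + c * (C1 + 1)) * B a := by positivity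
        linarith
      rw [← hΓ' a v g]
      refine (Finset.sum_le_sum h2).trans ?_
      rw [Finset.sum_const, nsmul_eq_mul]
      refine mul_le_mul_of_nonneg_right ?_ h13
      have h17 := Finset.card_le_univ (T0 v g)
      rw [Fintype.card_fin] at h17
      exact_mod_cast h17
    have h1 : ∀ v ∈ S, X a v ≤ q * (d * (c * hgt (x (φ a))) + (c + C2 + c * (C1 + 1)) * B a) := by
      intro v hv
      refine le_of_mul_le_mul_left ?_ hc0
      rw [hGX a v hv]
      refine (Finset.sum_le_sum fun g _ => h0 v hv g).trans (le_of_eq ?_)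
      rw [Finset.sum_const, Finset.card_univ, nsmul_eq_mul, ← hc]
    refine (Finset.sum_le_sum h1).trans (le_of_eq ?_)
    rw [Finset.sum_const, nsmul_eq_mul]
    ring
  obtain ⟨K3, hkey⟩ : ∃ K3 : ℝ, ∀ a : ℕ,
      (a : ℝ) * B a + (d + ε) * hgt (x (φ a)) ≤ K6 / (n + 1) * hgt (x (φ a)) + K3 * B a := by
    refine ⟨K5 / (n + 1) + S.card * ((q * C1 + 1) / (n + 1)), fun a => ?_⟩
    have h1 := Finset.sum_le_sum fun v hv => hTX a v hv
    rw [Finset.sum_add_distrib, Finset.sum_const, nsmul_eq_mul, ← Finset.sum_div, hK0a] at h1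
    have h3 := div_le_div_of_nonneg_right (hSX a) hn1.le
    rw [add_div] at h3
    have h4 : K6 * hgt (x (φ a)) / ((n : ℝ) + 1) = K6 / (n + 1) * hgt (x (φ a)) := by ring
    rw [h4] at h3
    have h5 := (hbig' a).le
    have h6 : (a : ℝ) * B a ≤ φ a * B a :=
      mul_le_mul_of_nonneg_right (by exact_mod_cast hφa a) (zero_le_one.trans (hB1 a))
    have h7 : (K5 / (n + 1) + S.card * ((q * C1 + 1) / (n + 1))) * B a =
        K5 * B a / (n + 1) + S.card * ((q * C1 + 1) * B a / (n + 1)) := by ring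
    rw [h7]
    linarith
  obtain ⟨K4, hK4⟩ : ∃ K4 : ℝ, K4 = K6 / (n + 1) := ⟨_, rfl⟩
  have hK40 : 0 ≤ K4 := by
    rw [hK4]
    positivity
  have hkey2 : ∀ a : ℕ, ((a : ℝ) - K3) * B a ≤ K4 * hgt (x (φ a)) := by
    intro a
    have h2 := hkey a
    have h3 : 0 ≤ (d + ε) * hgt (x (φ a)) := mul_nonneg (by positivity) (hh0 _)
    rw [← hK4] at h2
    linarith
  have hH1 : Tendsto (fun a => Hg (s a) (M a) (y a)) atTop atTop := by
    have h1 : ∀ a : ℕ, c * (((a : ℝ) - K3) / (K4 + 1)) ≤ Hg (s a) (M a) (y a) := by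
      intro a
      rw [← hH a]
      refine mul_le_mul_of_nonneg_left ?_ hc0.le
      have hq0 : (0 : ℝ) < K4 + 1 := by linarith
      rw [div_le_iff₀ hq0]
      have h4 := hh0 (φ a)
      have h5 := mul_nonneg hK40 h4
      rcases le_total ((a : ℝ) - K3) 0 with h6 | h6
      · linarith
      · have h2 := hkey2 a
        have h7 := mul_le_mul_of_nonneg_left (hB1 a) h6
        linarith
    refine tendsto_atTop_mono h1 ?_
    refine Tendsto.const_mul_atTop hc0 ?_
    refine Tendsto.atTop_div_const (by linarith) ?_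
    exact tendsto_atTop_add_const_right _ _ tendsto_natCast_atTop_atTop
  have hBslow : ∀ η : ℝ, 0 < η → ∀ᶠ a in atTop, B a ≤ η * Hg (s a) (M a) (y a) := by
    intro η hη
    have h2 : Tendsto (fun a : ℕ => (a : ℝ) - K3) atTop atTop :=
      tendsto_atTop_add_const_right _ _ tendsto_natCast_atTop_atTop
    filter_upwards [h2.eventually_ge_atTop (K4 / (c * η) + 1)] with a h3
    rw [← hH a]
    have h4 : 0 ≤ K4 / (c * η) := by positivity
    have h5 : 0 < (a : ℝ) - K3 := by linarith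
    have h6 := hkey2 a
    have h7 : K4 * hgt (x (φ a)) ≤ ((a : ℝ) - K3) * (η * (c * hgt (x (φ a)))) := by
      have h8 : K4 * hgt (x (φ a)) = K4 / (c * η) * (η * (c * hgt (x (φ a)))) := by
        field_simp
      rw [h8]
      refine mul_le_mul_of_nonneg_right (by linarith) ?_
      exact mul_nonneg hη.le (mul_nonneg hc0.le (hh0 _))
    exact le_of_mul_le_mul_left (h6.trans h7) h5
  -- the data
  let D : SqG k G :=
    { U := hyperfilter ℕ
      L := fun a => gal (x (φ a))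
      fL := fun a => inferInstance
      aL := fun a => inferInstance
      s := s
      N := M
      qs := hQ'
      H := fun a => Hg (s a) (M a) (y a)
      H1 := hH1.mono_left Nat.hyperfilter_le_atTop }
  let y' : ∀ a, Fin (N + 1) → D.L a := y
  have hPt : Ptg D y' := ⟨hy1, fun a => rfl⟩
  have hyI : ∀ a, ∀ p ∈ I, aeval (y' a) p = 0 := fun a p hp => (hyx a p).2 (hxI _ p hp)
  have hyQ : ∀ a, aeval (y' a) (Q (c0 (φ a))) ≠ 0 := fun a h => hxQ (φ a) ((hyx a _).1 h)
  have hslow : ∀ t, SlowG D fun a => algebraMap k (D.L a) (c0 (φ a) t) := by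
    rintro ⟨i, μ⟩ η hη
    have hltop : (D.U : Filter ℕ) ≤ atTop := Nat.hyperfilter_le_atTop
    filter_upwards [hltop (hBslow (η / c) (div_pos hη hc0))] with a h2
    refine (htg_le_hcf (D.qs a) (hc1 (φ a) i) μ).trans ?_
    rw [← hc]
    have h3 := mul_le_mul_of_nonneg_left ((hBc a i).trans h2) hc0.le
    refine h3.trans (le_of_eq ?_)
    show c * (η / c * Hg (s a) (M a) (y a)) = η * Hg (s a) (M a) (y a)
    field_simp
  obtain ⟨ρ, hρ⟩ := exists_rep_luw Hs
  -- the classes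
  have hne : Nonempty (Fin r') := ⟨⟨0, hr'0⟩⟩
  let cl : Pl k → Fin r' → Fin r' := fun v j => Function.invFun (fun j => p 0 v (ρ j)) (p 0 v (ρ j))
  have hcl1 : ∀ v j, p 0 v (ρ (cl v j)) = p 0 v (ρ j) := fun v j =>
    Function.invFun_eq (f := fun j => p 0 v (ρ j)) ⟨j, rfl⟩
  have hcl2 : ∀ v j, cl v (cl v j) = cl v j := by
    intro v j
    show Function.invFun _ (p 0 v (ρ (cl v j))) = Function.invFun _ _
    rw [hcl1]
  have hcl3 : ∀ a, ∀ v ∈ S, ∀ j j', cl v j = cl v j' ↔ p a v (ρ j) = p a v (ρ j') := by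
    intro a v hv j j'
    rw [← hRp a v hv, hRp 0 v hv]
    constructor
    · intro h
      rw [← hcl1 v j, h, hcl1]
    · intro h
      show Function.invFun _ (p 0 v (ρ j)) = Function.invFun _ (p 0 v (ρ j'))
      rw [h]
  have hcl4 : ∀ a, ∀ v ∈ S, ∀ j, p a v (ρ (cl v j)) = p a v (ρ j) := fun a v hv j => (hcl3 a v hv _ _).1 (hcl2 v j)
  obtain ⟨nj, hnj⟩ : ∃ nj : Pl k → Fin r' → ℕ, nj = fun v j => (Finset.univ.filter fun j' => cl v j' = j).card := ⟨_, rfl⟩
  have hnj' : ∀ v j, (Finset.univ.filter fun j' => cl v j' = j).card = nj v j := fun v j => by rw [hnj]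
  have hnjr : ∀ v j, nj v j ≤ r' := by
    intro v j
    rw [← hnj']
    have h1 := Finset.card_le_univ (Finset.univ.filter fun j' => cl v j' = j)
    rwa [Fintype.card_fin] at h1
  have hnj0 : ∀ v j, 0 < nj v (cl v j) := by
    intro v j
    rw [← hnj']
    exact Finset.card_pos.2 ⟨j, Finset.mem_filter.2 ⟨Finset.mem_univ _, rfl⟩⟩
  -- the local degrees
  have hnjl : ∀ a, ∀ v ∈ S, ∀ j, nj v (cl v j) = ldeg v (p a v (ρ (cl v j))) := by
    intro a v hv j
    have h1 := card_rep_luw Hs ρ hρ (p a v) (fun g h hh => hph a v g h hh) (p a v (ρ (cl v j)))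
    rw [hpc a v _ (hpa a v _)] at h1
    have h2 := Nat.eq_of_mul_eq_mul_left hHs0 h1
    rw [h2, ← hnj']
    congr 1
    ext j'
    simp only [Finset.mem_filter, Finset.mem_univ, true_and]
    rw [hcl4 a v hv j, ← hcl3 a v hv]
  let ξ : Pl k → Fin r' → Option (Fin (r + 1) × Fin (r + 1)) := fun v j =>
    some (⟨nj v (cl v j), Nat.lt_succ_of_le ((hnjr v _).trans hr'r)⟩, ⟨r', Nat.lt_succ_of_le hr'r⟩)
  have hξ : ∀ v j, ξ v (cl v j) = ξ v j := by
    intro v j
    simp only [ξ, hcl2]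
  have hRpm : ∀ v j, j ∈ Finset.univ.image (cl v) → cl v j = j := by
    intro v j hj
    obtain ⟨j', -, rfl⟩ := Finset.mem_image.1 hj
    exact hcl2 v j'
  have hval : ∀ v, ∀ j ∈ Finset.univ.image (cl v), Eq n (θ (ξ v j)) - (1 - (nj v j : ℝ) / r') * θ (ξ v j) =
      cnq n ((r' : ℝ) / nj v j) / ((r' : ℝ) / nj v j) := by
    intro v j hj
    have h1 := hθs (ξ v j) _ rfl (hnj0 v j) (hnjr v _)
    simp only [hRpm v j hj] at h1
    exact h1
  -- the sets
  have hTh : ∀ v ∈ S, ∀ g, ∀ h ∈ Hs, T0 v (g * h) = T0 v g := by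
    intro v hv g h hh
    rw [← hJT 0 v hv g, ← hJT 0 v hv (g * h), hph 0 v g h hh]
  have hTc : ∀ v ∈ S, ∀ j, T0 v (ρ (cl v j)) = T0 v (ρ j) := by
    intro v hv j
    rw [← hJT 0 v hv, ← hJT 0 v hv, hcl4 0 v hv j]
  -- the types
  have hty : ∀ v, ∃ t : Fin 3, v ∈ S → ∀ᶠ a in (D.U : Filter ℕ), T a v =
      if t = 0 then ∑ w ∈ above (fld (x (φ a))) v, cnq n (dg (x (φ a)) / ldeg v w) * W a v w
      else if t = 1 then W a v (w (φ a) v) / (dg (x (φ a)) * (n + 1)) else X a v / (gfam (x (φ a)) v * (n + 1)) := by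
    intro v
    by_cases hv : v ∈ S
    · have h1 : ∀ a, ∃ t : Fin 3, T a v =
          if t = 0 then ∑ w ∈ above (fld (x (φ a))) v, cnq n (dg (x (φ a)) / ldeg v w) * W a v w
          else if t = 1 then W a v (w (φ a) v) / (dg (x (φ a)) * (n + 1)) else X a v / (gfam (x (φ a)) v * (n + 1)) := by
        intro a
        rcases max_choice (∑ w ∈ above (fld (x (φ a))) v, cnq n (dg (x (φ a)) / ldeg v w) * W a v w)
          (max (W a v (w (φ a) v) / (dg (x (φ a)) * (n + 1))) (X a v / (gfam (x (φ a)) v * (n + 1)))) with h | h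
        · exact ⟨0, by simp only [if_true]; exact h⟩
        · rcases max_choice (W a v (w (φ a) v) / (dg (x (φ a)) * (n + 1))) (X a v / (gfam (x (φ a)) v * (n + 1))) with h' | h'
          · exact ⟨1, by simp only [one_ne_zero, if_false, if_true]; exact h.trans h'⟩
          · refine ⟨2, ?_⟩
            have e1 : (2 : Fin 3) ≠ 0 := by decide
            have e2 : (2 : Fin 3) ≠ 1 := by decide
            rw [if_neg e1, if_neg e2]
            exact h.trans h'
      have h2 : ∀ᶠ a in (D.U : Filter ℕ), ∃ t : Fin 3, T a v =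
          if t = 0 then ∑ w ∈ above (fld (x (φ a))) v, cnq n (dg (x (φ a)) / ldeg v w) * W a v w
          else if t = 1 then W a v (w (φ a) v) / (dg (x (φ a)) * (n + 1)) else X a v / (gfam (x (φ a)) v * (n + 1)) :=
        Eventually.of_forall h1
      obtain ⟨t, ht⟩ := Ultrafilter.eventually_exists_iff.1 h2
      exact ⟨t, fun _ => ht⟩
    · exact ⟨0, fun h => absurd h hv⟩
  choose ty hty using hty
  have hty' : ∀ᶠ a in (D.U : Filter ℕ), ∀ v ∈ S, T a v =
      if ty v = 0 then ∑ w ∈ above (fld (x (φ a))) v, cnq n (dg (x (φ a)) / ldeg v w) * W a v w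
      else if ty v = 1 then W a v (w (φ a) v) / (dg (x (φ a)) * (n + 1)) else X a v / (gfam (x (φ a)) v * (n + 1)) := by
    rw [Filter.eventually_all_finset]
    exact fun v hv => hty v hv
  have hcore := (hcoreQ y' hPt hyI (fun a => c0 (φ a)) hslow hyQ S T0 hT0 hgp
    (fun a v hv g i hi => by
      have := hyf a v hv g i hi
      rwa [hf] at this)).1 Hs hHy hTh g₁
    (fun v => Finset.univ.filter fun u => R v (u * g₁ v) (g₁ v)) (fun v => Finset.univ.filter fun u => ∀ g, R v (u * g) g)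
    (fun a v hv u hu z hz => hpM a v _ _ ((hRp a v hv _ _).1 (Finset.mem_filter.1 hu).2) z hz)
    (fun a v hv u hu g z hz => hpM a v _ _ ((hRp a v hv _ _).1 ((Finset.mem_filter.1 hu).2 g)) z hz)
    ρ hρ (fun v => Finset.univ.image (cl v)) cl ξ (fun v hv j => ⟨Finset.mem_image_of_mem _ (Finset.mem_univ j), hξ v j, hTc v hv j⟩)
    (fun v _ j hj => by
      rw [hnj', hval v j hj]
      have h1 := hA (⟨nj v j, Nat.lt_succ_of_le ((hnjr v _).trans hr'r)⟩, ⟨r', Nat.lt_succ_of_le hr'r⟩)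
      refine h1 ?_ (hnjr v j)
      show 0 < nj v j
      rw [← hRpm v j hj]
      exact hnj0 v j)
    (fun a v hv j z hz => hpM a v _ _ (hcl4 a v hv j) z hz) ty
  obtain ⟨a, hcore, hty''⟩ := (hcore.and hty').exists
  have hHa : D.H a = c * hgt (x (φ a)) := (hH a).symm
  have hterm : ∀ v ∈ S, c ^ 2 * T a v =
      (if ty v = 0 then (Fintype.card G : ℝ) ^ 2 * ∑ j ∈ Finset.univ.image (cl v), ((Eq n (θ (ξ v j)) -
                (1 - ((Finset.univ.filter fun j' => cl v j' = j).card : ℝ) / r') * θ (ξ v j)) *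
                ∑ i ∈ T0 v (ρ j), gam (D.s a) (D.N a) (y' a) d (tfrm (c0 (φ a)) i) v (ρ j))
        else if ty v = 1 then (Finset.univ.filter fun u => R v (u * g₁ v) (g₁ v)).card * Nat.card Hs / (n + 1) *
          ∑ i ∈ T0 v (g₁ v), gam (D.s a) (D.N a) (y' a) d (tfrm (c0 (φ a)) i) v (g₁ v)
        else (Finset.univ.filter fun u => ∀ g, R v (u * g) g).card / (n + 1) *
          ∑ g, ∑ i ∈ T0 v g, gam (D.s a) (D.N a) (y' a) d (tfrm (c0 (φ a)) i) v g) := by
    intro v hv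
    rw [hty'' v hv]
    have hΓa : ∀ g, ∑ i ∈ T0 v g, gam (D.s a) (D.N a) (y' a) d (tfrm (c0 (φ a)) i) v g = Γ a v g := by
      intro g
      rw [← hΓ' a v g, hf]
    simp only [hΓa]
    split_ifs with h0 h1
    · rw [← hc]
      congr 1
      symm
      refine Finset.sum_bij (fun j _ => p a v (ρ j)) (fun j _ => hpa a v _) ?_ ?_ ?_
      · intro j hj j' hj' h
        rw [← hRpm v j hj, ← hRpm v j' hj']
        exact (hcl3 a v hv j j').2 h
      · intro w hw
        obtain ⟨g, rfl⟩ := hsurj a v w hw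
        obtain ⟨j, hj, -⟩ := hρ g
        refine ⟨cl v j, Finset.mem_image_of_mem _ (Finset.mem_univ j), ?_⟩
        rw [hcl4 a v hv]
        have h2 := hph a v (ρ j) _ hj
        rw [mul_inv_cancel_left] at h2
        exact h2.symm
      · intro j hj
        rw [hnj', hval v j hj, hdg a]
        have h2 := hnjl a v hv j
        rw [hRpm v j hj] at h2
        rw [h2]
        have h3 := hWΓ a v hv (ρ j)
        have h4 := (hl0 a v _ (hpa a v (ρ j))).ne'
        have h5 : Γ a v (ρ j) = r' * W a v (p a v (ρ j)) / ldeg v (p a v (ρ j)) := by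
          rw [h3, mul_div_cancel_left₀ _ h4]
        rw [h5]
        field_simp
    · have h2 : ((Finset.univ.filter fun u => R v (u * g₁ v) (g₁ v)).card : ℝ) = Nat.card Hs * ldeg v (p a v (g₁ v)) := by
        rw [← hpc' a v _ (hpa a v (g₁ v))]
        congr 1
        refine Finset.card_bij' (fun u _ => u * g₁ v) (fun g _ => g * (g₁ v)⁻¹) ?_ ?_ ?_ ?_
        · intro u hu
          rw [Finset.mem_filter] at hu ⊢
          exact ⟨Finset.mem_univ _, (hRp a v hv _ _).1 hu.2⟩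
        · intro g hg
          rw [Finset.mem_filter] at hg ⊢
          refine ⟨Finset.mem_univ _, ?_⟩
          rw [inv_mul_cancel_right]
          exact (hRp a v hv _ _).2 hg.2
        · intro u _
          exact mul_inv_cancel_right _ _
        · intro g _
          exact inv_mul_cancel_right _ _
      have h3 := hWΓ a v hv (g₁ v)
      have h4 := (hl0 a v _ (hpa a v (g₁ v))).ne'
      have h5 : Γ a v (g₁ v) = r' * W a v (p a v (g₁ v)) / ldeg v (p a v (g₁ v)) := by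
        rw [h3, mul_div_cancel_left₀ _ h4]
      rw [h2, h5, hpg₁ a v hv, hdg a, ← hHR]
      rw [hpg₁ a v hv] at h4
      field_simp
    · rw [← hGX a v hv]
      have h2 : ((Finset.univ.filter fun u => ∀ g, R v (u * g) g).card : ℝ) * gfam (x (φ a)) v = c := by
        have h3 := hKd a v hv
        rw [Nat.card_eq_fintype_card, Fintype.card_subtype] at h3
        rw [hc]
        exact_mod_cast h3
      have h6 := hgf1 a v hv
      have h7 : ((Finset.univ.filter fun u => ∀ g, R v (u * g) g).card : ℝ) = c / gfam (x (φ a)) v := by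
        rw [← h2, mul_div_cancel_right₀ _ (zero_lt_one.trans_le h6).ne']
      rw [h7, div_mul_eq_div_div]
      ring
  have hfinal := Finset.sum_congr (rfl : S = S) hterm
  rw [← Finset.mul_sum] at hfinal
  have h2 := hfinal.le.trans hcore
  rw [hHa, ← hc] at h2
  have h3 := mul_lt_mul_of_pos_left (hbig' a) (pow_pos hc0 2)
  have h4 : 0 ≤ c ^ 2 * (φ a * B a) :=
    mul_nonneg (pow_nonneg hc0.le 2) (mul_nonneg (Nat.cast_nonneg _) (zero_le_one.trans (hB1 a)))
  have h5 : c * (d + ε) * (c * hgt (x (φ a))) = c ^ 2 * ((d + ε) * hgt (x (φ a))) := by ring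
  rw [h5] at h2
  rw [mul_add] at h3
  linarith

end Pool.Agent.SQ
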