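import Pool.Agent.Helper16.BW.COE
import Pool.Agent.Helper16.BW.SEQ
import Pool.Agent.Helper64.BU.HC

/-!
# Points in towers, uniformly in the forms, with index sets for the places of the residue field

After `fin_tu` of `Pool/Agent/Helper67/BU/FINtu.lean` (helper67) and `fin_rvx` of `Pool/Agent/Helper99/RV/FIN2X.lean` (helper99).
-/

set_option autoImplicit false
set_option linter.unusedSectionVars false

namespace Pool.Agent.SQ

open NumberField Filter Module MvPolynomial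
open Pool.Agent.Helper64.Vojta (Pl nv sn above)
open Pool.Agent.Helper52.Vojta (ldeg)
open Pool.Agent.V2
open Pool.Agent.Chart (fld dg crd hgt)

universe u

section

variable {k : Type u} [Field k] [NumberField k]

private theorem val_crd_tuw {N : ℕ} (x : Fin (N + 1) → AlgebraicClosure k) (f : MvPolynomial (Fin (N + 1)) k) :
    ((aeval (crd x) f : fld x) : AlgebraicClosure k) = aeval x f := by
  have h1 := MvPolynomial.comp_aeval_apply (f := crd x) (fld x).val f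
  exact h1

private theorem val_y_tuw {N : ℕ} (x : Fin (N + 1) → AlgebraicClosure k) (y : Fin (N + 1) → gal x)
    (hy : ∀ j, (y j : AlgebraicClosure k) = x j) (f : MvPolynomial (Fin (N + 1)) k) :
    ((aeval y f : gal x) : AlgebraicClosure k) = aeval x f := by
  have h1 := MvPolynomial.comp_aeval_apply (f := y) (gal x).val f
  have h2 : (fun j => (gal x).val (y j)) = x := funext hy
  rw [h2] at h1
  exact h1

private theorem ne_iff_tuw {N : ℕ} (x : Fin (N + 1) → AlgebraicClosure k) (y : Fin (N + 1) → gal x)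
    (hy : ∀ j, (y j : AlgebraicClosure k) = x j) (f : MvPolynomial (Fin (N + 1)) k) : aeval y f = 0 ↔ aeval x f = 0 := by
  rw [← val_y_tuw x y hy f]
  exact ZeroMemClass.coe_eq_zero.symm

private theorem crd_iff_tuw {N : ℕ} (x : Fin (N + 1) → AlgebraicClosure k) (f : MvPolynomial (Fin (N + 1)) k) :
    aeval (crd x) f = 0 ↔ aeval x f = 0 := by
  rw [← val_crd_tuw x f]
  exact ZeroMemClass.coe_eq_zero.symm

end

/-- **Points in towers, uniformly in the forms.** -/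
theorem fin_tuw {k : Type u} [Field k] [NumberField k] {N n d q r : ℕ} (hd : 0 < d) (hr : 0 < r)
    (I : Ideal (MvPolynomial (Fin (N + 1)) k)) [I.IsPrime] (hI : ∀ p ∈ I, ∀ m, homogeneousComponent m p ∈ I)
    (hdim : Algebra.trdeg k (MvPolynomial (Fin (N + 1)) k ⧸ I) = n + 1) {ε : ℝ} (hε : 0 < ε) :
    ∃ (M : ℕ) (Q : (Fin q × Mns N d → k) → MvPolynomial (Fin (N + 1)) k),
      (∀ c, Q c ∉ I ∧ ∃ e ≤ M, (Q c).IsHomogeneous e) ∧
      ∀ S : Finset (Pl k), ∃ C : ℝ, ∀ (c : Fin q × Mns N d → k), (∀ i, ∃ μ, c (i, μ) = 1) →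
      ∀ x : Fin (N + 1) → AlgebraicClosure k, (∃ j, x j = 1) → (∀ p ∈ I, aeval x p = 0) → InTower r x →
      ∀ J : Pl (fld x) → Finset (Fin q), (∀ v ∈ S, ∀ w ∈ above (fld x) v, n + 1 ≤ (J w).card) →
        (∀ v ∈ S, ∀ w ∈ above (fld x) v, ∀ J' ⊆ J w, J'.card = n + 1 → ∀ z : Fin (N + 1) → AlgebraicClosure k,
          (∀ p ∈ I, aeval z p = 0) → (∀ i ∈ J', aeval z (tfrm c i) = 0) → z = 0) →
        (∀ v ∈ S, ∀ w ∈ above (fld x) v, ∀ i ∈ J w, aeval (crd x) (tfrm c i) ≠ 0) → aeval x (Q c) ≠ 0 →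
        ∑ ν ∈ S, ∑ w ∈ above (fld x) ν, ∑ i ∈ J w, lamW d (tfrm c i) x w ≤
          (r * (n + 1) * d + ε) * hgt x + C * (1 + ∑ i, hcf c i) := by
  classical
  have hn1 : (0 : ℝ) < n + 1 := by positivity
  have hrR : (0 : ℝ) < r := by exact_mod_cast hr
  obtain ⟨Mq, Q, hQ, hcoreQ⟩ := core_euw (n := n) q hd I hI hdim (Ξ := Unit) (θ := fun _ => 1) (fun _ => zero_le_one)
    (fun _ => le_rfl) (ξ₁ := ()) rfl one_pos le_rfl (ε := ε / (r * (n + 1))) (by positivity)
  refine ⟨Mq, Q, hQ, fun S => ?_⟩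
  by_contra hcon
  push Not at hcon
  have hbad : ∀ m : ℕ, ∃ c : Fin q × Mns N d → k, (∀ i, ∃ μ, c (i, μ) = 1) ∧
      ∃ x : Fin (N + 1) → AlgebraicClosure k, (∃ j, x j = 1) ∧ (∀ p ∈ I, aeval x p = 0) ∧ InTower r x ∧
      ∃ J : Pl (fld x) → Finset (Fin q), (∀ v ∈ S, ∀ w ∈ above (fld x) v, n + 1 ≤ (J w).card) ∧
        (∀ v ∈ S, ∀ w ∈ above (fld x) v, ∀ J' ⊆ J w, J'.card = n + 1 → ∀ z : Fin (N + 1) → AlgebraicClosure k,
          (∀ p ∈ I, aeval z p = 0) → (∀ i ∈ J', aeval z (tfrm c i) = 0) → z = 0) ∧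
        (∀ v ∈ S, ∀ w ∈ above (fld x) v, ∀ i ∈ J w, aeval (crd x) (tfrm c i) ≠ 0) ∧ aeval x (Q c) ≠ 0 ∧
        (r * (n + 1) * d + ε) * hgt x + m * (1 + ∑ i, hcf c i) <
          ∑ ν ∈ S, ∑ w ∈ above (fld x) ν, ∑ i ∈ J w, lamW d (tfrm c i) x w := by
    intro m
    by_contra h
    obtain ⟨c, h1, x, h2, h3, h4, J, h5, h6, h7, h8, h9⟩ := hcon m
    exact h ⟨c, h1, x, h2, h3, h4, J, h5, h6, h7, h8, h9⟩
  choose c0 hc1 x hx1 hxI hxr J hJc hJp hxf hxQ hbig using hbad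
  obtain ⟨G, gG, fG, Hs, H, φ, T0, hφ, hHsub, hHr, hHd, y, M, s, p, hy, hQ', hH, hyH, hpa, hpc, hlW, hJT⟩ :=
    exists_seq_ltJ x hx1 hxr S J
  have hT0 : ∀ v ∈ S, ∀ g, n + 1 ≤ (T0 v g).card := by
    intro v hv g
    rw [← hJT 0 v hv g]
    exact hJc _ v hv _ (hpa 0 v g)
  obtain ⟨f, hf⟩ : ∃ f : ℕ → Fin q → MvPolynomial (Fin (N + 1)) k, f = fun a => tfrm (c0 (φ a)) := ⟨_, rfl⟩
  obtain ⟨B, hB⟩ : ∃ B : ℕ → ℝ, B = fun a => 1 + ∑ i, hcf (c0 (φ a)) i := ⟨_, rfl⟩
  have hcf0 : ∀ a i, 0 ≤ hcf (c0 (φ a)) i := fun a i => hcf_nonneg (hc1 _ i)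
  have hB1 : ∀ a, 1 ≤ B a := by
    intro a
    have := Finset.sum_nonneg fun i (_ : i ∈ Finset.univ) => hcf0 a i
    rw [hB]
    show 1 ≤ 1 + ∑ i, hcf (c0 (φ a)) i
    linarith
  have hBc : ∀ a i, hcf (c0 (φ a)) i ≤ B a := by
    intro a i
    have := Finset.single_le_sum (f := fun i => hcf (c0 (φ a)) i) (fun i _ => hcf0 a i) (Finset.mem_univ i)
    rw [hB]
    show hcf (c0 (φ a)) i ≤ 1 + ∑ i, hcf (c0 (φ a)) i
    linarith
  set c : ℝ := (Fintype.card G : ℝ) with hc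
  have hc0 : 0 < c := by
    rw [hc]
    exact_mod_cast Fintype.card_pos
  have hφa : ∀ a, a ≤ φ a := fun a => hφ.le_apply
  have hy1 : ∀ a, ∃ j, y a j = 1 := by
    intro a
    obtain ⟨j, hj⟩ := hx1 (φ a)
    refine ⟨j, Subtype.ext ?_⟩
    rw [hy a j, hj]
    rfl
  have hyx : ∀ a (p : MvPolynomial (Fin (N + 1)) k), aeval (y a) p = 0 ↔ aeval (x (φ a)) p = 0 :=
    fun a p => ne_iff_tuw _ _ (hy a) p
  have hgp : ∀ a, ∀ v ∈ S, ∀ g, ∀ J' ⊆ T0 v g, J'.card = n + 1 → ∀ z : Fin (N + 1) → AlgebraicClosure k,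
      (∀ p ∈ I, aeval z p = 0) → (∀ i ∈ J', aeval z (tfrm (c0 (φ a)) i) = 0) → z = 0 := by
    intro a v hv g J' hJ'
    rw [← hJT a v hv g] at hJ'
    exact hJp (φ a) v hv _ (hpa a v g) J' hJ'
  have hxf' : ∀ a, ∀ v ∈ S, ∀ g, ∀ i ∈ T0 v g, aeval (crd (x (φ a))) (f a i) ≠ 0 := by
    intro a v hv g i hi
    rw [← hJT a v hv g] at hi
    rw [hf]
    exact hxf (φ a) v hv _ (hpa a v g) i hi
  have hyf : ∀ a, ∀ v ∈ S, ∀ g, ∀ i ∈ T0 v g, aeval (y a) (f a i) ≠ 0 := by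
    intro a v hv g i hi h
    exact hxf' a v hv g i hi ((crd_iff_tuw _ _).2 ((hyx a _).1 h))
  -- the index
  have hHs0 : 0 < Nat.card Hs := Nat.card_pos
  have hHi : Nat.card Hs * Hs.index = Fintype.card G := by
    rw [Subgroup.card_mul_index, Nat.card_eq_fintype_card]
  have hdg : ∀ a, dg (x (φ a)) = Hs.index := by
    intro a
    exact Nat.eq_of_mul_eq_mul_left hHs0 ((hHd a).trans hHi.symm)
  set r' : ℕ := Hs.index with hr'
  have hr'0 : 0 < r' := by
    rcases Nat.eq_zero_or_pos r' with h | h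
    · rw [h, mul_zero] at hHi
      exact absurd hHi.symm Fintype.card_ne_zero
    · exact h
  have hr'R0 : (0 : ℝ) < r' := by exact_mod_cast hr'0
  have hr'R1 : (1 : ℝ) ≤ r' := by exact_mod_cast hr'0
  have hη0 : (0 : ℝ) < Nat.card Hs := by exact_mod_cast hHs0
  have hHR : (Nat.card Hs : ℝ) * r' = c := by
    rw [hc]
    exact_mod_cast hHi
  -- local degrees
  have hl0 : ∀ (a : ℕ) (v : Pl k), ∀ w ∈ above (fld (x (φ a))) v, (0 : ℝ) < ldeg v w := by
    intro a v w hw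
    exact_mod_cast Nat.pos_of_ne_zero (Pool.Agent.QP.ldeg_ne_zero hw)
  -- the local values
  obtain ⟨Γ, hΓ⟩ : ∃ Γ : ℕ → Pl k → G → ℝ, Γ = fun a v g => ∑ i ∈ T0 v g, gam (s a) (M a) (y a) d (f a i) v g := ⟨_, rfl⟩
  have hΓ' : ∀ a v g, ∑ i ∈ T0 v g, gam (s a) (M a) (y a) d (f a i) v g = Γ a v g := fun a v g => by rw [hΓ]
  let W : ∀ a, ∀ v : Pl k, Pl (fld (x (φ a))) → ℝ := fun a v w => ∑ i ∈ J (φ a) w, lamW d (f a i) (x (φ a)) w
  let X : ℕ → Pl k → ℝ := fun a v => ∑ w ∈ above (fld (x (φ a))) v, W a v w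
  have hXW : ∀ a v, X a v = ∑ w ∈ above (fld (x (φ a))) v, W a v w := fun a v => rfl
  have hWΓ : ∀ a, ∀ v ∈ S, ∀ g, r' * W a v (p a v g) = ldeg v (p a v g) * Γ a v g := by
    intro a v hv g
    show (r' : ℝ) * ∑ i ∈ J (φ a) (p a v g), lamW d (f a i) (x (φ a)) (p a v g) = _
    rw [hΓ, Finset.mul_sum, Finset.mul_sum, hJT a v hv g]
    refine Finset.sum_congr rfl fun i hi => ?_
    have h1 := hlW a v g d (f a i) (hxf' a v hv g i hi)
    rw [hdg a] at h1
    exact h1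
  have hpc' : ∀ a v, ∀ w ∈ above (fld (x (φ a))) v, ((Finset.univ.filter fun g => p a v g = w).card : ℝ) =
      Nat.card Hs * ldeg v w := by
    intro a v w hw
    have h1 := hpc a v w hw
    rw [Nat.card_eq_fintype_card, Fintype.card_subtype] at h1
    exact_mod_cast h1
  have hGX : ∀ a, ∀ v ∈ S, c * X a v = ∑ g, Γ a v g := by
    intro a v hv
    have hmap : ∀ g ∈ (Finset.univ : Finset G), p a v g ∈ above (fld (x (φ a))) v := fun g _ => hpa a v g
    rw [← Finset.sum_fiberwise_of_maps_to hmap, hXW, Finset.mul_sum]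
    refine Finset.sum_congr rfl fun w hw => ?_
    have h1 : ∀ g ∈ Finset.univ.filter (fun g => p a v g = w), Γ a v g = r' * W a v w / ldeg v w := by
      intro g hg
      have h2 := hWΓ a v hv g
      rw [(Finset.mem_filter.1 hg).2] at h2
      rw [h2, mul_div_cancel_left₀ _ (hl0 a v w hw).ne']
    rw [Finset.sum_congr rfl h1, Finset.sum_const, nsmul_eq_mul, hpc' a v w hw, ← hHR]
    have := (hl0 a v w hw).ne'
    field_simp
  -- the constants
  obtain ⟨C1, hC10, hC1⟩ := gam_ge_u.{u} G k N d q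
  have hgl : ∀ a, ∀ v ∈ S, ∀ g g', ∀ i ∈ T0 v g, -(C1 + hcf (c0 (φ a)) i) ≤ gam (s a) (M a) (y a) d (f a i) v g' := by
    intro a v hv g g' i hi
    have h3 := hC1 _ (s a) (M a) (hQ' a) (c0 (φ a)) i (hc1 _ i) (y a) (by
      have := hyf a v hv g i hi
      rwa [hf] at this) v g'
    have h4 := sum_le_hcf (hc1 (φ a) i) {v}
    rw [Finset.sum_singleton] at h4
    rw [hf]
    linarith
  have hh0 : ∀ a, 0 ≤ hgt (x a) := fun a => by
    unfold hgt
    exact div_nonneg (Height.logHeight_nonneg _) (Nat.cast_nonneg _)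
  obtain ⟨K6, K5, hK60, hSX⟩ : ∃ K6 K5 : ℝ, 0 ≤ K6 ∧ ∀ a, ∑ v ∈ S, X a v ≤ K6 * hgt (x (φ a)) + K5 * B a := by
    obtain ⟨C2, hC20, hC2⟩ := gam_sum_u.{u} G k N d q
    refine ⟨S.card * (q * (d * c)), S.card * (q * (c + C2 + c * (C1 + 1))), by positivity, fun a => ?_⟩
    have h0 : ∀ v ∈ S, ∀ g, Γ a v g ≤ q * (d * (c * hgt (x (φ a))) + (c + C2 + c * (C1 + 1)) * B a) := by
      intro v hv g
      have h2 : ∀ i ∈ T0 v g, gam (s a) (M a) (y a) d (f a i) v g ≤
          d * (c * hgt (x (φ a))) + (c + C2 + c * (C1 + 1)) * B a := by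
        intro i hi
        have h3 := hC2 _ (s a) (M a) (hQ' a) (c0 (φ a)) i (hc1 _ i) (y a) (hy1 a) (by
          have := hyf a v hv g i hi
          rwa [hf] at this) {v}
        rw [Finset.sum_singleton, ← hH a, ← hc] at h3
        have h4 : gam (s a) (M a) (y a) d (f a i) v g + (C1 + hcf (c0 (φ a)) i) ≤
            ∑ g', (gam (s a) (M a) (y a) d (f a i) v g' + (C1 + hcf (c0 (φ a)) i)) :=
          Finset.single_le_sum (f := fun g' => gam (s a) (M a) (y a) d (f a i) v g' + (C1 + hcf (c0 (φ a)) i))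
            (fun g' _ => by linarith [hgl a v hv g g' i hi]) (Finset.mem_univ g)
        rw [Finset.sum_add_distrib, Finset.sum_const, Finset.card_univ, nsmul_eq_mul, ← hc] at h4
        have h5 := hBc a i
        have h6 := hB1 a
        have h7 := hcf0 a i
        have h8 : ∑ g', gam (s a) (M a) (y a) d (f a i) v g' ≤ d * (c * hgt (x (φ a))) + (c * hcf (c0 (φ a)) i + C2) := by
          rw [hf]
          linarith
        have h9 : c * hcf (c0 (φ a)) i ≤ c * B a := mul_le_mul_of_nonneg_left h5 hc0.le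
        have h10 : C2 ≤ C2 * B a := le_mul_of_one_le_right hC20 h6
        have h11 : c * C1 ≤ c * C1 * B a := le_mul_of_one_le_right (mul_nonneg hc0.le hC10) h6
        have h12 : (c + C2 + c * (C1 + 1)) * B a = c * B a + C2 * B a + c * C1 * B a + c * B a := by ring
        rw [h12]
        linarith
      have h13 : 0 ≤ d * (c * hgt (x (φ a))) + (c + C2 + c * (C1 + 1)) * B a := by
        have h14 := hB1 a
        have h15 : 0 ≤ (d : ℝ) * (c * hgt (x (φ a))) := mul_nonneg (Nat.cast_nonneg _) (mul_nonneg hc0.le (hh0 _))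
        have h16 : 0 ≤ (c + C2 + c * (C1 + 1)) * B a := by positivity
        linarith
      rw [← hΓ' a v g]
      refine (Finset.sum_le_sum h2).trans ?_
      rw [Finset.sum_const, nsmul_eq_mul]
      refine mul_le_mul_of_nonneg_right ?_ h13
      have h17 := Finset.card_le_univ (T0 v g)
      rw [Fintype.card_fin] at h17
      exact_mod_cast h17
    have h1 : ∀ v ∈ S, X a v ≤ q * (d * (c * hgt (x (φ a))) + (c + C2 + c * (C1 + 1)) * B a) := by
      intro v hv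
      refine le_of_mul_le_mul_left ?_ hc0
      rw [hGX a v hv]
      refine (Finset.sum_le_sum fun g _ => h0 v hv g).trans (le_of_eq ?_)
      rw [Finset.sum_const, Finset.card_univ, nsmul_eq_mul, ← hc]
    refine (Finset.sum_le_sum h1).trans (le_of_eq ?_)
    rw [Finset.sum_const, nsmul_eq_mul]
    ring
  have hbig' : ∀ a, (r * (n + 1) * d + ε) * hgt (x (φ a)) + φ a * B a < ∑ v ∈ S, X a v := by
    intro a
    have h1 := hbig (φ a)
    simp only [W, X]
    rw [hB, hf]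
    exact h1
  obtain ⟨K3, hK3⟩ : ∃ K3 : ℝ, K3 = K5 := ⟨_, rfl⟩
  obtain ⟨K4, hK4⟩ : ∃ K4 : ℝ, K4 = K6 := ⟨_, rfl⟩
  have hK40 : 0 ≤ K4 := by
    rw [hK4]
    exact hK60
  have hkey2 : ∀ a : ℕ, ((a : ℝ) - K3) * B a ≤ K4 * hgt (x (φ a)) := by
    intro a
    have h2 := (hbig' a).le.trans (hSX a)
    have h3 : 0 ≤ (r * (n + 1) * d + ε) * hgt (x (φ a)) := mul_nonneg (by positivity) (hh0 _)
    have h6 : (a : ℝ) * B a ≤ φ a * B a :=
      mul_le_mul_of_nonneg_right (by exact_mod_cast hφa a) (zero_le_one.trans (hB1 a))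
    rw [hK3, hK4]
    linarith
  have hH1 : Tendsto (fun a => Hg (s a) (M a) (y a)) atTop atTop := by
    have h1 : ∀ a : ℕ, c * (((a : ℝ) - K3) / (K4 + 1)) ≤ Hg (s a) (M a) (y a) := by
      intro a
      rw [← hH a]
      refine mul_le_mul_of_nonneg_left ?_ hc0.le
      have hq0 : (0 : ℝ) < K4 + 1 := by linarith
      rw [div_le_iff₀ hq0]
      have h4 := hh0 (φ a)
      have h5 := mul_nonneg hK40 h4
      rcases le_total ((a : ℝ) - K3) 0 with h6 | h6
      · linarith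
      · have h2 := hkey2 a
        have h7 := mul_le_mul_of_nonneg_left (hB1 a) h6
        linarith
    refine tendsto_atTop_mono h1 ?_
    refine Tendsto.const_mul_atTop hc0 ?_
    refine Tendsto.atTop_div_const (by linarith) ?_
    exact tendsto_atTop_add_const_right _ _ tendsto_natCast_atTop_atTop
  have hBslow : ∀ η : ℝ, 0 < η → ∀ᶠ a in atTop, B a ≤ η * Hg (s a) (M a) (y a) := by
    intro η hη
    have h2 : Tendsto (fun a : ℕ => (a : ℝ) - K3) atTop atTop :=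
      tendsto_atTop_add_const_right _ _ tendsto_natCast_atTop_atTop
    filter_upwards [h2.eventually_ge_atTop (K4 / (c * η) + 1)] with a h3
    rw [← hH a]
    have h4 : 0 ≤ K4 / (c * η) := by positivity
    have h5 : 0 < (a : ℝ) - K3 := by linarith
    have h6 := hkey2 a
    have h7 : K4 * hgt (x (φ a)) ≤ ((a : ℝ) - K3) * (η * (c * hgt (x (φ a)))) := by
      have h8 : K4 * hgt (x (φ a)) = K4 / (c * η) * (η * (c * hgt (x (φ a)))) := by
        field_simp
      rw [h8]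
      refine mul_le_mul_of_nonneg_right (by linarith) ?_
      exact mul_nonneg hη.le (mul_nonneg hc0.le (hh0 _))
    exact le_of_mul_le_mul_left (h6.trans h7) h5
  -- the data
  let D : SqG k G :=
    { U := hyperfilter ℕ
      L := fun a => gal (x (φ a))
      fL := fun a => inferInstance
      aL := fun a => inferInstance
      s := s
      N := M
      qs := hQ'
      H := fun a => Hg (s a) (M a) (y a)
      H1 := hH1.mono_left Nat.hyperfilter_le_atTop }
  let y' : ∀ a, Fin (N + 1) → D.L a := y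
  have hPt : Ptg D y' := ⟨hy1, fun a => rfl⟩
  have hyI : ∀ a, ∀ p ∈ I, aeval (y' a) p = 0 := fun a p hp => (hyx a p).2 (hxI _ p hp)
  have hyQ : ∀ a, aeval (y' a) (Q (c0 (φ a))) ≠ 0 := fun a h => hxQ (φ a) ((hyx a _).1 h)
  have hslow : ∀ t, SlowG D fun a => algebraMap k (D.L a) (c0 (φ a) t) := by
    rintro ⟨i, μ⟩ η hη
    have hltop : (D.U : Filter ℕ) ≤ atTop := Nat.hyperfilter_le_atTop
    filter_upwards [hltop (hBslow (η / c) (div_pos hη hc0))] with a h2
    refine (htg_le_hcf (D.qs a) (hc1 (φ a) i) μ).trans ?_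
    rw [← hc]
    have h3 := mul_le_mul_of_nonneg_left ((hBc a i).trans h2) hc0.le
    refine h3.trans (le_of_eq ?_)
    show c * (η / c * Hg (s a) (M a) (y a)) = η * Hg (s a) (M a) (y a)
    field_simp
  obtain ⟨a, ha⟩ := ((hcoreQ y' hPt hyI (fun a => c0 (φ a)) hslow hyQ S T0 hT0 hgp
    (fun a v hv g i hi => by
      have := hyf a v hv g i hi
      rwa [hf] at this)).2 H hHsub hyH).exists
  have hHa : D.H a = c * hgt (x (φ a)) := (hH a).symm
  have h1 : c * ∑ v ∈ S, X a v =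
      ∑ v ∈ S, ∑ g, ∑ i ∈ T0 v g, gam (D.s a) (D.N a) (y' a) d (tfrm (c0 (φ a)) i) v g := by
    rw [Finset.mul_sum]
    refine Finset.sum_congr rfl fun v hv => ?_
    rw [hGX a v hv, hΓ, hf]
  rw [← h1, hHa] at ha
  have h2 : ∑ v ∈ S, X a v ≤ H.index * (n + 1) * (d + ε / (r * (n + 1))) * hgt (x (φ a)) := by
    refine le_of_mul_le_mul_left (ha.trans (le_of_eq ?_)) hc0
    ring
  have h3 : H.index * (n + 1) * (d + ε / (r * (n + 1))) ≤ r * (n + 1) * d + ε := by
    have h4 : (H.index : ℝ) ≤ r := by exact_mod_cast hHr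
    have h5 : (H.index : ℝ) * (n + 1) * (d + ε / (r * (n + 1))) ≤ r * (n + 1) * (d + ε / (r * (n + 1))) := by
      have : (0 : ℝ) ≤ d + ε / (r * (n + 1)) := by positivity
      gcongr
    refine h5.trans (le_of_eq ?_)
    field_simp
  have h4 := mul_le_mul_of_nonneg_right h3 (hh0 (φ a))
  have h5 := hbig' a
  have h6 : (0 : ℝ) ≤ φ a * B a := mul_nonneg (Nat.cast_nonneg _) (zero_le_one.trans (hB1 a))
  linarith

end Pool.Agent.SQ
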